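import Pool.Agent.W5h52.ZP.Dist
import Pool.Agent.W5h52.ZP.Main

/-!
Extensions with amenable kernel with distal monodromy.
-/

set_option autoImplicit false
set_option linter.unusedSectionVars false

open scoped Matrix

namespace Pool.Agent.W5h52.ZP

open Pool.Agent.H919R4.ZS MonoidAlgebra
open Pool.Agent.TH38.ZT (ExAt exAt_iff euler exists_of_euler contraction')
open Pool.Agent.R807.ZK (gmap rat rat_inj clear toRat toQuot coeff quot Back back_acyclic tor_of_rat
  augm_gmap gmap_surj eps_row rat_single)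
open Pool.Agent.H496R3.ZS (IsAmenable)

noncomputable section

section

variable {G : Type} [Group G] {R : Type} [Ring R]

/-- the complex after a change of rings -/
abbrev cx (X : FinRes G) (φ : MonoidAlgebra ℤ G →+* R) : MCx R :=
  ⟨X.n, fun i => (X.d i).map φ, fun i => Pool.Agent.TH38.ZT.dd X φ i⟩

/-- cycles and the homology of the complex -/
def hmap (X : FinRes G) (φ : MonoidAlgebra ℤ G →+* R) (k : ℕ) :
    X.cyc φ (k + 1) →ₗ[R] (cx X φ).H k :=
  LinearMap.codRestrict ((cx X φ).H k)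
    (((cx X φ).B (k + 1)).mkQ.comp (X.cyc φ (k + 1)).subtype) (fun x => x.2)

lemma hmap_surj (X : FinRes G) (φ : MonoidAlgebra ℤ G →+* R) (k : ℕ) :
    Function.Surjective (hmap X φ k) := by
  rintro ⟨q, hq⟩
  obtain ⟨x, rfl⟩ := Submodule.Quotient.mk_surjective _ q
  exact ⟨⟨x, hq⟩, rfl⟩

lemma hmap_ker (X : FinRes G) (φ : MonoidAlgebra ℤ G →+* R) (k : ℕ) :
    (LinearMap.range (X.del φ (k + 1))).submoduleOf (X.cyc φ (k + 1)) =
      LinearMap.ker (hmap X φ k) := by
  refine Submodule.ext fun x => ?_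
  rw [LinearMap.mem_ker]
  have h1 : hmap X φ k x = 0 ↔ (Submodule.Quotient.mk x.1 : (cx X φ).Q (k + 1)) = 0 :=
    ⟨fun h => congrArg Subtype.val h, fun h => Subtype.ext h⟩
  exact (h1.trans (Submodule.Quotient.mk_eq_zero _)).symm

/-- the homology -/
def hEquiv (X : FinRes G) (φ : MonoidAlgebra ℤ G →+* R) (k : ℕ) :
    X.homology φ (k + 1) ≃ₗ[R] (cx X φ).H k :=
  (Submodule.quotEquivOfEq _ _ (hmap_ker X φ k)).trans
    (LinearMap.quotKerEquivOfSurjective (hmap X φ k) (hmap_surj X φ k))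

end

section

variable {G Q : Type} [Group G] [Group Q]

lemma augQ_rat (a : MonoidAlgebra ℤ Q) : augQ Q (rat Q a) = (augm Q a : ℚ) := by
  refine induction_linear a ?_ ?_ ?_
  · rw [map_zero, map_zero, map_zero, Int.cast_zero]
  · intro x y hx hy
    rw [map_add, map_add, map_add, hx, hy, Int.cast_add]
  · intro g c
    rw [rat_single, augQ_single, augm_single]

lemma rat_vecMul {a b : ℕ} (z : Fin a → MonoidAlgebra ℤ Q)
    (M : Matrix (Fin a) (Fin b) (MonoidAlgebra ℤ Q)) :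
    (fun j => rat Q ((z ᵥ* M) j)) = (fun k => rat Q (z k)) ᵥ* M.map (rat Q) := by
  funext j
  simp [Matrix.vecMul, dotProduct, map_sum]

lemma div_vecMul {a b : ℕ} {c : ℤ} (hc : c ≠ 0) (y : Fin a → MonoidAlgebra ℚ Q)
    (M : Matrix (Fin a) (Fin b) (MonoidAlgebra ℚ Q)) (x : Fin b → MonoidAlgebra ℚ Q)
    (h : y ᵥ* M = c • x) : ((c : ℚ)⁻¹ • y) ᵥ* M = x := by
  rw [Matrix.smul_vecMul, h, ← Int.cast_smul_eq_zsmul ℚ, smul_smul,
    inv_mul_cancel₀ (by exact_mod_cast hc), one_smul]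

/-- the augmentation -/
def augv (Q : Type) [Group Q] (X : FinRes G) : Fin (X.n 0) → Triv Q := fun j => (X.aug j : ℚ)

/-- the homology in degree zero -/
theorem q0 (X : FinRes G) (π : MonoidAlgebra ℤ G →+* MonoidAlgebra ℤ Q)
    (hπ : ∀ a, augm Q (π a) = augm G a) (hs : Function.Surjective π) :
    Nonempty ((cx X ((rat Q).comp π)).Q 0 ≃ₗ[MonoidAlgebra ℚ Q] Triv Q) := by
  set f : (Fin (X.n 0) → MonoidAlgebra ℚ Q) →ₗ[MonoidAlgebra ℚ Q] Triv Q :=
    lin (MonoidAlgebra ℚ Q) (augv Q X) with hf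
  have hfa : ∀ x, f x = (∑ j, augQ Q (x j) * ((X.aug j : ℤ) : ℚ) : ℚ) := fun x => rfl
  have hsurj : Function.Surjective f := by
    intro t0
    obtain ⟨t, ht⟩ : ∃ t : ℚ, t = t0 := ⟨t0, rfl⟩
    rw [← ht]
    obtain ⟨x0, hx0⟩ := X.surj
    refine ⟨fun j => sc t * rat Q (π (x0 j)), ?_⟩
    rw [hfa]
    have h1 : ∀ j, augQ Q (sc t * rat Q (π (x0 j))) * ((X.aug j : ℤ) : ℚ) =
        t * ((augm G (x0 j) * X.aug j : ℤ) : ℚ) := by
      intro j
      rw [map_mul, sc, augQ_single, augQ_rat, hπ]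
      push_cast
      ring
    rw [Finset.sum_congr rfl fun j _ => h1 j, ← Finset.mul_sum, ← Int.cast_sum, hx0, Int.cast_one,
      mul_one]
  have hker : (cx X ((rat Q).comp π)).B 0 = LinearMap.ker f := by
    refine le_antisymm ?_ ?_
    · rintro _ ⟨y, rfl⟩
      rw [LinearMap.mem_ker]
      change lin (MonoidAlgebra ℚ Q) (augv Q X) (y ᵥ* (X.d 0).map ((rat Q).comp π)) = 0
      rw [lin_vecMul]
      have h1 : mv ((X.d 0).map ((rat Q).comp π)) (augv Q X) = 0 := by
        funext i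
        change (∑ j, augQ Q (rat Q (π (X.d 0 i j))) * ((X.aug j : ℤ) : ℚ) : ℚ) = 0
        have h2 : ∀ j, augQ Q (rat Q (π (X.d 0 i j))) * ((X.aug j : ℤ) : ℚ) =
            ((augm G (X.d 0 i j) * X.aug j : ℤ) : ℚ) := by
          intro j
          rw [augQ_rat, hπ]
          push_cast
          rfl
        rw [Finset.sum_congr rfl fun j _ => h2 j, ← Int.cast_sum, eps_row, Int.cast_zero]
      rw [h1, lin_apply]
      simp
    · intro x hx
      rw [LinearMap.mem_ker, hfa] at hx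
      obtain ⟨c, hc, x', hx'⟩ := clear x
      choose x'' hx'' using fun j => hs (x' j)
      have h1 : ∑ j, augm G (x'' j) * X.aug j = 0 := by
        have h2 : ((∑ j, augm G (x'' j) * X.aug j : ℤ) : ℚ) =
            (c : ℚ) * ∑ j, augQ Q (x j) * ((X.aug j : ℤ) : ℚ) := by
          rw [Int.cast_sum, Finset.mul_sum]
          refine Finset.sum_congr rfl fun j _ => ?_
          rw [← hπ, hx'', Int.cast_mul, ← augQ_rat, hx', map_zsmul, zsmul_eq_mul, mul_assoc]
        have h3 : (∑ j, augQ Q (x j) * ((X.aug j : ℤ) : ℚ) : ℚ) = 0 := hx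
        rw [h3, mul_zero] at h2
        exact_mod_cast h2
      obtain ⟨y, hy⟩ := (X.exact_zero x'').1 h1
      refine ⟨(c : ℚ)⁻¹ • fun k => rat Q (π (y k)), ?_⟩
      refine div_vecMul hc _ _ _ ?_
      have h4 : (fun k => rat Q (π (y k))) ᵥ* ((X.d 0).map π).map (rat Q) =
          fun j => rat Q (((fun k => π (y k)) ᵥ* (X.d 0).map π) j) := (rat_vecMul _ _).symm
      have h5 : (fun k => π (y k)) ᵥ* (X.d 0).map π = fun j => π ((y ᵥ* X.d 0) j) := by
        funext j
        simp [Matrix.vecMul, dotProduct, map_sum]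
      refine h4.trans ?_
      rw [h5, hy]
      funext j
      change rat Q (π (x'' j)) = c • x j
      rw [hx'', hx']
  exact ⟨(Submodule.quotEquivOfEq _ _ hker).trans (LinearMap.quotKerEquivOfSurjective f hsurj)⟩

/-- exactness over the rational numbers -/
theorem ratEx (Y : FinRes Q) (k : ℕ) : Subsingleton ((cx Y (rat Q)).H k) := by
  refine subsingleton_of_forall_eq 0 ?_
  rintro ⟨q, hq⟩
  obtain ⟨x, rfl⟩ := Submodule.Quotient.mk_surjective _ q
  refine Subtype.ext ((Submodule.Quotient.mk_eq_zero _).2 ?_)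
  have hx : x ᵥ* (Y.d k).map (rat Q) = 0 := hq
  obtain ⟨c, hc, x', hx'⟩ := clear x
  have h1 : x' ᵥ* Y.d k = 0 := by
    funext j
    refine rat_inj ?_
    have h2 := congrFun (rat_vecMul x' (Y.d k)) j
    rw [h2, funext hx']
    have h3 : (fun k => c • x k) = c • x := rfl
    rw [h3, Matrix.smul_vecMul, hx, smul_zero, Pi.zero_apply, Pi.zero_apply, map_zero]
  obtain ⟨y, hy⟩ := (Y.exact_succ k x').1 h1
  refine ⟨(c : ℚ)⁻¹ • fun k => rat Q (y k), ?_⟩
  refine div_vecMul hc _ _ _ ?_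
  refine (rat_vecMul y (Y.d (k + 1))).symm.trans ?_
  rw [hy]
  funext j
  exact hx' j

lemma map_psi {H : Type} [Group H] (π : MonoidAlgebra ℤ H →+* MonoidAlgebra ℤ Q) {a b : ℕ}
    (M : Matrix (Fin a) (Fin b) (MonoidAlgebra ℤ H)) :
    (M.map ((rat Q).comp π)).map (psi Q) = M.map ((toRed Q).comp π) := by
  rw [← psi_rat]
  rfl

lemma map_psi' {a b : ℕ} (M : Matrix (Fin a) (Fin b) (MonoidAlgebra ℤ Q)) :
    (M.map (rat Q)).map (psi Q) = M.map (toRed Q) := by
  rw [← psi_rat]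
  rfl

/-- cohomology with coefficients in modules over the reduced C*-algebra -/
theorem hv_of_ex (X : FinRes G) (π : MonoidAlgebra ℤ G →+* MonoidAlgebra ℤ Q) (p : ℕ)
    (h : ∀ i ≤ p, ExAt X ((toRed Q).comp π) i) :
    ∀ i ≤ p, ∀ (A : Type) [AddCommGroup A] [Module (RedC Q) A],
      (cx X ((rat Q).comp π)).HV (Res (psi Q) A) i := by
  obtain ⟨s, hs0, hs⟩ := contraction' X ((toRed Q).comp π) p h
  intro i hi A _ _
  cases i with
  | zero =>
    refine HV_of_contr0 (psi Q) (cx X ((rat Q).comp π)) (s 0) ?_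
    change s 0 * ((X.d 0).map ((rat Q).comp π)).map (psi Q) = 1
    rw [map_psi]
    exact hs0
  | succ i =>
    refine HV_of_contr (psi Q) (cx X ((rat Q).comp π)) i (s i) (s (i + 1)) ?_
    change ((X.d i).map ((rat Q).comp π)).map (psi Q) * s i +
      s (i + 1) * ((X.d (i + 1)).map ((rat Q).comp π)).map (psi Q) = 1
    rw [map_psi, map_psi]
    exact hs i hi

/-- the descent -/
theorem allV_triv (X : FinRes G) (π : MonoidAlgebra ℤ G →+* MonoidAlgebra ℤ Q)
    (hπ : ∀ a, augm Q (π a) = augm G a) (hs : Function.Surjective π) (p : ℕ)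
    (h : ∀ i ≤ p, ExAt X ((toRed Q).comp π) i)
    (hD : ∀ q, 1 ≤ q → q < p → Dis Q (X.homology ((rat Q).comp π) q)) :
    ∀ j ≤ p, AllV Q j (Triv Q) := by
  obtain ⟨e⟩ := q0 X π hπ hs
  have hv := hv_of_ex X π p h
  intro j
  induction j using Nat.strong_induction_on with
  | _ j ih =>
    intro hj A _ _
    refine EV_congr e.symm ?_
    cases j with
    | zero => exact MCx.base0 (hv 0 hj A)
    | succ J =>
      refine MCx.core J (hv (J + 1) hj A) fun t k htk => ?_
      exact EV_congr (hEquiv X ((rat Q).comp π) k).symm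
        (allV_dis (ih t (by omega) (by omega)) (hD (k + 1) (by omega) (by omega)) A)

lemma q0' (Y : FinRes Q) : Nonempty ((cx Y (rat Q)).Q 0 ≃ₗ[MonoidAlgebra ℚ Q] Triv Q) :=
  q0 Y (RingHom.id _) (fun _ => rfl) Function.surjective_id

lemma hv_of_EV (Y : FinRes Q) (j : ℕ) {A : Type} [AddCommGroup A] [Module (MonoidAlgebra ℚ Q) A]
    (h : EV (R := MonoidAlgebra ℚ Q) A j (Triv Q)) : (cx Y (rat Q)).HV A j := by
  obtain ⟨e⟩ := q0' Y
  have h1 := EV_congr e h
  cases j with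
  | zero => exact MCx.conv0 h1
  | succ J => exact MCx.conv (ratEx Y) J h1

/-- the homology of the quotient -/
theorem exAt_of_allV (Y : FinRes Q) (j : ℕ) (h : AllV Q j (Triv Q)) : ExAt Y (toRed Q) j := by
  have h1 : (cx Y (rat Q)).Ex (psi Q) j := ex_of_HV (psi Q) (cx Y (rat Q)) j fun A _ _ =>
    hv_of_EV Y j (h A)
  cases j with
  | zero =>
    intro x
    obtain ⟨y, hy⟩ := h1 x
    refine ⟨y, ?_⟩
    rw [← map_psi']
    exact hy
  | succ j =>
    intro x hx
    rw [← map_psi'] at hx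
    obtain ⟨y, hy⟩ := h1 x hx
    refine ⟨y, ?_⟩
    rw [← map_psi']
    exact hy

end

end

end Pool.Agent.W5h52.ZP
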