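import Pool.Agent.W5h52.ZP.Inv

/-!
`ℓ²`-cohomology of a quotient by a normal subgroup whose rational homology is finite dimensional in
one degree and vanishes below.
-/

set_option autoImplicit false
set_option linter.unusedSectionVars false

open scoped Matrix ENNReal

namespace Pool.Agent.W5h52.ZP

open Pool.Agent.H919R4.ZS MonoidAlgebra
open Pool.Agent.TH38.ZT (ExAt exAt_iff contraction' eps_vecMul zrows_succ)
open Pool.Agent.R807.ZK (fwd Back homotopy)

variable {G Q : Type} [Group G] [Group Q]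

/-- the cohomology of a complex with coefficients in `ℓ²(Q)` vanishes in a degree -/
def VanA (X : FinRes G) (π : MonoidAlgebra ℤ G →+* MonoidAlgebra ℤ Q) : ℕ → Prop
  | 0 => ∀ v : Fin (X.n 0) → L2 Q, A ((X.d 0).map π) v = 0 → v = 0
  | i + 1 => ∀ v : Fin (X.n (i + 1)) → L2 Q, A ((X.d (i + 1)).map π) v = 0 →
      ∃ w, A ((X.d i).map π) w = v

/-- the `ℓ²`-cohomology of a resolution vanishes in a degree -/
def Van2 (Y : FinRes Q) : ℕ → Prop
  | 0 => ∀ v : Fin (Y.n 0) → L2 Q, A (Y.d 0) v = 0 → v = 0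
  | i + 1 => ∀ v : Fin (Y.n (i + 1)) → L2 Q, A (Y.d (i + 1)) v = 0 → ∃ w, A (Y.d i) w = v

theorem vanA_of_ex (X : FinRes G) (π : MonoidAlgebra ℤ G →+* MonoidAlgebra ℤ Q) (p : ℕ)
    (h : ∀ i ≤ p, ExAt X ((toRed Q).comp π) i) : ∀ i ≤ p, VanA X π i := by
  obtain ⟨s, hs0, hs⟩ := contraction' X ((toRed Q).comp π) p h
  have key : ∀ i, ((X.d i).map ((toRed Q).comp π)).map (valR (G := Q)) =
      ((X.d i).map π).map (L (G := Q)) := fun i => rfl
  intro i hi
  cases i with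
  | zero =>
    intro v hv
    have f0 := map_ident0 (valR (G := Q)) _ _ hs0
    rw [key] at f0
    rw [← act_one v, ← f0, act_mul]
    change act _ (A _ v) = 0
    rw [hv, act_zero]
  | succ i =>
    intro v hv
    have f1 := map_ident (valR (G := Q)) _ _ _ _ (hs i hi)
    rw [key, key] at f1
    refine ⟨act ((s i).map (valR (G := Q))) v, ?_⟩
    change act _ (act _ v) = v
    conv_rhs => rw [← act_one v, ← f1, act_add, act_mul, act_mul]
    change _ = _ + act _ (A _ v)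
    rw [hv, act_zero, add_zero]

theorem van_low {X : FinRes G} {Y : FinRes Q} {π : MonoidAlgebra ℤ G →+* MonoidAlgebra ℤ Q}
    (hπ : ∀ a, augm Q (π a) = augm G a) {p : ℕ} (hB : Back X Y π p) (h : VanA X π p) :
    Van2 Y p := by
  obtain ⟨c, hc, K, hK0, hK⟩ := hB
  obtain ⟨F, hF0, hF⟩ := fwd X Y π hπ
  obtain ⟨H, hH0, hH⟩ := homotopy Y p c (fun i => K i * F i) (by
      intro k
      rw [Matrix.mul_apply_eq_vecMul, eps_vecMul, ← hK0 k]
      exact Finset.sum_congr rfl fun j _ => by rw [hF0 j]) (by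
      intro i hi
      rw [← Matrix.mul_assoc, hK i hi, Matrix.mul_assoc, hF, ← Matrix.mul_assoc])
  cases p with
  | zero =>
    intro v hv
    have h1 := h (A (F 0) v) (by rw [← A_mul, hF, A_mul, hv, A_zero])
    have h2 : A (K 0 * F 0) v - c • v = 0 := by
      rw [← A_one c v, ← A_sub, hH0, A_mul, hv, A_zero]
    rw [A_mul, h1, A_zero, zero_sub, neg_eq_zero] at h2
    exact smul_inj hc h2
  | succ i =>
    intro v hv
    obtain ⟨b, hb⟩ := h (A (F (i + 1)) v) (by rw [← A_mul, hF, A_mul, hv, A_zero])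
    refine exists_div hc (w := A (K i) b - A (H i) v) ?_
    have h1 : A (Y.d i * K i) b = A (K (i + 1)) (A (F (i + 1)) v) := by
      rw [hK i (Nat.lt_succ_self i), A_mul, hb]
    have h2 : A (K (i + 1) * F (i + 1)) v - c • v = A (Y.d i * H i) v := by
      rw [← A_one c v, ← A_sub, hH i (Nat.lt_succ_self i), A_add, A_mul (H (i + 1)), hv, A_zero,
        add_zero]
    rw [A_sub', ← A_mul, ← A_mul, h1, ← A_mul, ← h2, sub_sub_cancel]

/-- the homology of a complex in degree `k + 1` has finite rank -/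
def FinAt (X : FinRes G) (π : MonoidAlgebra ℤ G →+* MonoidAlgebra ℤ Q) (k : ℕ) : Prop :=
  ∃ (r : ℕ) (c : Fin r → Fin (X.n (k + 1)) → MonoidAlgebra ℤ Q),
    (∀ i, c i ᵥ* (X.d k).map π = 0) ∧ ∀ x, x ᵥ* (X.d k).map π = 0 → ∃ M : ℤ, M ≠ 0 ∧
      ∃ (a : Fin r → ℤ) (y : Fin (X.n (k + 2)) → MonoidAlgebra ℤ Q),
        M • x = ∑ i, a i • c i + y ᵥ* (X.d (k + 1)).map π

section

variable {X : FinRes G} {Y : FinRes Q} {π : MonoidAlgebra ℤ G →+* MonoidAlgebra ℤ Q} {k : ℕ}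

/-- the values on cycles of the homomorphism `H_(k+1) → ℓ²(Q)` attached to a cocycle -/
def Rel (X : FinRes G) (Y : FinRes Q) (π : MonoidAlgebra ℤ G →+* MonoidAlgebra ℤ Q) (k : ℕ)
    (F : Matrix (Fin (X.n (k + 1))) (Fin (Y.n (k + 1))) (MonoidAlgebra ℤ Q))
    (b : Fin (X.n (k + 1)) → L2 Q) (z : Fin (Y.n (k + 2)) → L2 Q)
    (x : Fin (X.n (k + 1)) → MonoidAlgebra ℤ Q) (v : L2 Q) : Prop :=
  x ᵥ* (X.d k).map π = 0 ∧ ∃ w, w ᵥ* Y.d (k + 1) = x ᵥ* F ∧ v = pV x b - pV w z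

variable {F : Matrix (Fin (X.n (k + 1))) (Fin (Y.n (k + 1))) (MonoidAlgebra ℤ Q)}
    {b : Fin (X.n (k + 1)) → L2 Q} {z : Fin (Y.n (k + 2)) → L2 Q}
    {x y : Fin (X.n (k + 1)) → MonoidAlgebra ℤ Q} {v u : L2 Q}

lemma pV_zero' {n : ℕ} (v : Fin n → L2 Q) : pV (0 : Fin n → MonoidAlgebra ℤ Q) v = 0 := by
  simp [pV]

lemma pV_zero_right {n : ℕ} (x : Fin n → MonoidAlgebra ℤ Q) : pV x (0 : Fin n → L2 Q) = 0 := by
  simp [pV]

lemma rel_unique (hz : A (Y.d (k + 2)) z = 0) (h : Rel X Y π k F b z x v)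
    (h' : Rel X Y π k F b z x u) : v = u := by
  obtain ⟨_, w, hw, rfl⟩ := h
  obtain ⟨_, w', hw', rfl⟩ := h'
  obtain ⟨t, ht⟩ := (Y.exact_succ (k + 1) (w - w')).1 (by
    rw [Matrix.sub_vecMul, hw, hw', sub_self])
  have h1 : pV (w - w') z = 0 := by
    rw [← ht, pV_vecMul]
    change pV t (A (Y.d (k + 2)) z) = 0
    rw [hz, pV_zero_right]
  rw [pV_sub, sub_eq_zero] at h1
  rw [h1]

lemma rel_add (h : Rel X Y π k F b z x v) (h' : Rel X Y π k F b z y u) :
    Rel X Y π k F b z (x + y) (v + u) := by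
  obtain ⟨h1, w, hw, rfl⟩ := h
  obtain ⟨h2, w', hw', rfl⟩ := h'
  refine ⟨by rw [Matrix.add_vecMul, h1, h2, add_zero], w + w', ?_, ?_⟩
  · rw [Matrix.add_vecMul, Matrix.add_vecMul, hw, hw']
  · rw [pV_add, pV_add]; abel

lemma rel_smul (a : MonoidAlgebra ℤ Q) (h : Rel X Y π k F b z x v) :
    Rel X Y π k F b z (a • x) (L a v) := by
  obtain ⟨h1, w, hw, rfl⟩ := h
  refine ⟨by rw [Matrix.smul_vecMul, h1, smul_zero], a • w, ?_, ?_⟩
  · rw [Matrix.smul_vecMul, Matrix.smul_vecMul, hw]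
  · rw [pV_smul, pV_smul, map_sub]

lemma L_intCast (M : ℤ) (v : L2 Q) : L (M : MonoidAlgebra ℤ Q) v = M • v := by
  have h : (M : MonoidAlgebra ℤ Q) = M • (1 : MonoidAlgebra ℤ Q) := by rw [zsmul_eq_mul, mul_one]
  rw [h, L_zsmul, map_one]
  rfl

lemma rel_zsmul (M : ℤ) (h : Rel X Y π k F b z x v) :
    Rel X Y π k F b z (M • x) (M • v) := by
  have h1 := rel_smul (M : MonoidAlgebra ℤ Q) h
  rwa [L_intCast, Int.cast_smul_eq_zsmul] at h1

lemma rel_zero : Rel X Y π k F b z 0 0 :=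
  ⟨Matrix.zero_vecMul _, 0, by rw [Matrix.zero_vecMul, Matrix.zero_vecMul],
    by rw [pV_zero', pV_zero', sub_zero]⟩

lemma rel_sum {r : ℕ} (c : Fin r → Fin (X.n (k + 1)) → MonoidAlgebra ℤ Q) (v : Fin r → L2 Q)
    (a : Fin r → ℤ) (h : ∀ i, Rel X Y π k F b z (c i) (v i)) :
    Rel X Y π k F b z (∑ i, a i • c i) (∑ i, a i • v i) := by
  classical
  have key : ∀ s : Finset (Fin r),
      Rel X Y π k F b z (∑ i ∈ s, a i • c i) (∑ i ∈ s, a i • v i) := by
    intro s
    induction s using Finset.induction_on with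
    | empty => rw [Finset.sum_empty, Finset.sum_empty]; exact rel_zero
    | insert i s hi ih =>
      rw [Finset.sum_insert hi, Finset.sum_insert hi]
      exact rel_add (rel_zsmul _ (h i)) ih
  exact key _

end

/-- the main step -/
theorem van_top [Infinite Q] {X : FinRes G} {Y : FinRes Q}
    {π : MonoidAlgebra ℤ G →+* MonoidAlgebra ℤ Q}
    (hπ : ∀ a, augm Q (π a) = augm G a) {k : ℕ} (hB : Back X Y π (k + 1))
    (hfin : FinAt X π k) (h : VanA X π (k + 2)) : Van2 Y (k + 2) := by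
  obtain ⟨c, hc, K, hK0, hK⟩ := hB
  obtain ⟨F, hF0, hF⟩ := fwd X Y π hπ
  obtain ⟨H, hH0, hH⟩ := homotopy Y (k + 1) c (fun i => K i * F i) (by
      intro k
      rw [Matrix.mul_apply_eq_vecMul, eps_vecMul, ← hK0 k]
      exact Finset.sum_congr rfl fun j _ => by rw [hF0 j]) (by
      intro i hi
      rw [← Matrix.mul_assoc, hK i hi, Matrix.mul_assoc, hF, ← Matrix.mul_assoc])
  intro z hz
  obtain ⟨b, hb⟩ := h (A (F (k + 2)) z) (by rw [← A_mul, hF, A_mul, hz, A_zero])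
  -- existence
  have hex : ∀ x : Fin (X.n (k + 1)) → MonoidAlgebra ℤ Q, x ᵥ* (X.d k).map π = 0 →
      ∃ v, Rel X Y π k (F (k + 1)) b z x v := by
    intro x hx
    obtain ⟨w, hw⟩ := (Y.exact_succ k (x ᵥ* F (k + 1))).1 (by
      rw [Matrix.vecMul_vecMul, ← hF, ← Matrix.vecMul_vecMul, hx, Matrix.zero_vecMul])
    exact ⟨_, hx, w, hw, rfl⟩
  have hbd : ∀ y : Fin (X.n (k + 2)) → MonoidAlgebra ℤ Q,
      Rel X Y π k (F (k + 1)) b z (y ᵥ* (X.d (k + 1)).map π) 0 := by
    intro y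
    refine ⟨?_, y ᵥ* F (k + 2), ?_, ?_⟩
    · rw [Matrix.vecMul_vecMul, Pool.Agent.R807.ZK.dmap, Matrix.vecMul_zero]
    · rw [Matrix.vecMul_vecMul, Matrix.vecMul_vecMul, hF]
    · rw [pV_vecMul, pV_vecMul]
      change 0 = pV y (A _ b) - pV y (A _ z)
      rw [hb, sub_self]
  -- vanishing
  have hvan : ∀ x v, Rel X Y π k (F (k + 1)) b z x v → v = 0 := by
    obtain ⟨r, cs, hcs, hspan⟩ := hfin
    choose vs hvs using fun i => hex (cs i) (hcs i)
    set V : Submodule ℂ (L2 Q) :=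
      Submodule.span ℂ {v | ∃ x, Rel X Y π k (F (k + 1)) b z x v} with hV
    have hle : V ≤ Submodule.span ℂ (Set.range vs) := by
      refine Submodule.span_le.2 ?_
      rintro v ⟨x, hx⟩
      obtain ⟨M, hM, a, y, hxy⟩ := hspan x hx.1
      have h1 : Rel X Y π k (F (k + 1)) b z (M • x) (∑ i, a i • vs i + 0) := by
        rw [hxy]
        exact rel_add (rel_sum cs vs a hvs) (hbd y)
      have h2 := rel_unique hz (rel_zsmul M hx) h1
      have hM' : (M : ℂ) ≠ 0 := by exact_mod_cast hM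
      have h3 : v = (M : ℂ)⁻¹ • ∑ i, (a i : ℂ) • vs i := by
        have h4 : (M : ℂ) • v = ∑ i, (a i : ℂ) • vs i := by
          rw [Int.cast_smul_eq_zsmul, h2, add_zero]
          exact Finset.sum_congr rfl fun i _ => (Int.cast_smul_eq_zsmul ℂ _ _).symm
        rw [← h4, smul_smul, inv_mul_cancel₀ hM', one_smul]
      rw [h3]
      exact Submodule.smul_mem _ _ (Submodule.sum_mem _ fun i _ =>
        Submodule.smul_mem _ _ (Submodule.subset_span ⟨i, rfl⟩))
    have : FiniteDimensional ℂ (Submodule.span ℂ (Set.range vs)) :=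
      FiniteDimensional.span_of_finite ℂ (Set.finite_range vs)
    have : FiniteDimensional ℂ V := Submodule.finiteDimensional_of_le hle
    have h0 := fin_inv V (by
      intro g v hv
      refine Submodule.span_induction (p := fun v _ => lregL g v ∈ V) ?_ ?_ ?_ ?_ hv
      · rintro v ⟨x, hx⟩
        refine Submodule.subset_span ⟨(single g 1 : MonoidAlgebra ℤ Q) • x, ?_⟩
        have h1 := rel_smul (single g 1 : MonoidAlgebra ℤ Q) hx
        rw [L_single, one_smul] at h1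
        exact h1
      · rw [map_zero]; exact Submodule.zero_mem _
      · intro x y _ _ hx hy
        rw [map_add]; exact Submodule.add_mem _ hx hy
      · intro a x _ hx
        rw [map_smul]; exact Submodule.smul_mem _ _ hx)
    intro x v hx
    have h1 : v ∈ V := Submodule.subset_span ⟨x, hx⟩
    rw [h0] at h1
    exact (Submodule.mem_bot ℂ).1 h1
  refine exists_div hc (w := A (K (k + 1)) b - A (H (k + 1)) z) ?_
  obtain ⟨W, hW⟩ : ∃ W : Matrix (Fin (Y.n (k + 2))) (Fin (Y.n (k + 2))) (MonoidAlgebra ℤ Q),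
      W = c • 1 + Y.d (k + 1) * H (k + 1) := ⟨_, rfl⟩
  have h1 : ∀ r, pV ((Y.d (k + 1) * K (k + 1)) r) b = pV (W r) z := by
    intro r
    have h2 : Rel X Y π k (F (k + 1)) b z ((Y.d (k + 1) * K (k + 1)) r)
        (pV ((Y.d (k + 1) * K (k + 1)) r) b - pV (W r) z) := by
      refine ⟨?_, _, ?_, rfl⟩
      · rw [← Matrix.mul_apply_eq_vecMul, Matrix.mul_assoc, ← hK k (Nat.lt_succ_self k),
          ← Matrix.mul_assoc, d_mul_d, Matrix.zero_mul]
        rfl
      · rw [← Matrix.mul_apply_eq_vecMul, ← Matrix.mul_apply_eq_vecMul]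
        have h3 : K (k + 1) * F (k + 1) = c • 1 + (Y.d k * H k + H (k + 1) * Y.d (k + 1)) := by
          rw [← hH k (Nat.lt_succ_self k), add_sub_cancel]
        rw [hW, Matrix.mul_assoc (Y.d (k + 1)) (K (k + 1)), h3, Matrix.mul_add, Matrix.mul_add,
          ← Matrix.mul_assoc (Y.d (k + 1)) (Y.d k), d_mul_d, Matrix.zero_mul, zero_add,
          Matrix.add_mul, Matrix.smul_mul, Matrix.one_mul, Matrix.mul_smul, Matrix.mul_one,
          Matrix.mul_assoc]
    exact sub_eq_zero.1 (hvan _ _ h2)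
  have h2 : A (Y.d (k + 1) * K (k + 1)) b = A W z := funext h1
  rw [A_sub', ← A_mul, ← A_mul, h2, hW, A_add, A_one, add_sub_cancel_right]

end Pool.Agent.W5h52.ZP
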