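import Pool.Agent.R807.ZK2

/-!
Tensor products of the regular representation with a bounded finite dimensional representation: the
homomorphism from the reduced group C*-algebra to matrices over it.
-/

set_option autoImplicit false
set_option linter.unusedSectionVars false

open scoped Matrix ENNReal

namespace Pool.Agent.W5h52.ZP

open Pool.Agent.H919R4.ZS MonoidAlgebra
open Pool.Agent.TH38.ZT (hom_ext_single)
open Pool.Agent.R807.ZK (rat rat_single)

noncomputable section

variable {Q : Type} [Group Q]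

/-! ### the rational group ring and the reduced C*-algebra -/

/-- the rational group ring acting on `ℓ²(Q)` -/
def opQ (Q : Type) [Group Q] : MonoidAlgebra ℚ Q →+* Op Q :=
  MonoidAlgebra.liftNCRingHom ((algebraMap ℂ (Op Q)).comp (algebraMap ℚ ℂ)) (lregHom Q)
    (fun x y => Algebra.commutes (algebraMap ℚ ℂ x) (lregHom Q y))

lemma opQ_single (g : Q) (c : ℚ) : opQ Q (single g c) = (c : ℂ) • lreg g := by
  change MonoidAlgebra.liftNC _ _ _ = _
  rw [MonoidAlgebra.liftNC_single]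
  change (algebraMap ℂ (Op Q)) (algebraMap ℚ ℂ c) * lregHom Q g = _
  rw [← Algebra.smul_def]
  rfl

lemma opQ_mem (a : MonoidAlgebra ℚ Q) : opQ Q a ∈ redCstar Q := by
  refine Subring.le_topologicalClosure _ ?_
  refine MonoidAlgebra.induction_linear a ?_ ?_ ?_
  · rw [map_zero]; exact Subring.zero_mem _
  · intro x y hx hy
    rw [map_add]; exact Subring.add_mem _ hx hy
  · intro g r
    rw [opQ_single]
    exact Subring.subset_closure ⟨(r : ℂ), g, rfl⟩

/-- the rational group ring and the reduced C*-algebra -/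
def psi (Q : Type) [Group Q] : MonoidAlgebra ℚ Q →+* RedC Q :=
  (opQ Q).codRestrict (redCstar Q) opQ_mem

/-- the inclusion -/
def vl (Q : Type) [Group Q] : RedC Q →+* Op Q := valR

lemma vl_inj : Function.Injective (vl Q) := fun _ _ h => Subtype.ext h

lemma vl_mem (s : RedC Q) : vl Q s ∈ redCstar Q := Subtype.prop (p := fun y => y ∈ redCstar Q) s

lemma vl_psi (a : MonoidAlgebra ℚ Q) : vl Q (psi Q a) = opQ Q a := rfl

lemma psi_rat : (psi Q).comp (rat Q) = toRed Q := by
  refine hom_ext_single fun g => vl_inj ?_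
  rw [RingHom.comp_apply, rat_single, vl_psi, opQ_single]
  change _ = L (single g 1)
  rw [L_single, one_smul, Int.cast_one, Rat.cast_one, one_smul]
  rfl

/-! ### multiplication operators -/

lemma memlp_mul {b : Q → ℂ} {C : ℝ} (hC : ∀ x, ‖b x‖ ≤ C) {f : Q → ℂ} (hf : Memℓp f 2) :
    Memℓp (fun x => b x * f x) 2 := by
  have h2 : 0 < (2 : ℝ≥0∞).toReal := by norm_num
  rw [memℓp_gen_iff h2] at hf ⊢
  refine Summable.of_nonneg_of_le (fun x => by positivity) (fun x => ?_)
    (hf.mul_left (C ^ (2 : ℝ≥0∞).toReal))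
  rw [norm_mul, Real.mul_rpow (norm_nonneg _) (norm_nonneg _)]
  exact mul_le_mul_of_nonneg_right (Real.rpow_le_rpow (norm_nonneg _) (hC x) h2.le) (by positivity)

/-- multiplication by a bounded function -/
def mlin (b : Q → ℂ) (C : ℝ) (hC : ∀ x, ‖b x‖ ≤ C) : Hil Q →ₗ[ℂ] Hil Q where
  toFun f := Hil.mk (fun x => b x * f.fn x) (memlp_mul hC f.memlp)
  map_add' f g := Subtype.ext (funext fun x => mul_add (b x) (f.fn x) (g.fn x))
  map_smul' c f := Subtype.ext (funext fun x => mul_left_comm (b x) c (f.fn x))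

lemma norm_mlin (b : Q → ℂ) (C : ℝ) (hC : ∀ x, ‖b x‖ ≤ C) (f : Hil Q) :
    ‖mlin b C hC f‖ ≤ C * ‖f‖ := by
  have h2 : 0 < (2 : ℝ≥0∞).toReal := by norm_num
  have hC0 : 0 ≤ C := (norm_nonneg _).trans (hC 1)
  have e : ∀ f : lp (fun _ : Q => ℂ) 2,
      ‖(show lp (fun _ : Q => ℂ) 2 from mlin b C hC f)‖ ≤ C * ‖f‖ := by
    intro f
    refine lp.norm_le_of_tsum_le h2 (mul_nonneg hC0 (norm_nonneg _)) ?_
    rw [Real.mul_rpow hC0 (norm_nonneg _), lp.norm_rpow_eq_tsum h2 f, ← tsum_mul_left]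
    have hs : Summable fun x => ‖f x‖ ^ (2 : ℝ≥0∞).toReal := (lp.memℓp f).summable h2
    refine Summable.tsum_le_tsum (fun x => ?_) ?_ (hs.mul_left _)
    · change ‖b x * f x‖ ^ (2 : ℝ≥0∞).toReal ≤ _
      rw [norm_mul, Real.mul_rpow (norm_nonneg _) (norm_nonneg _)]
      exact mul_le_mul_of_nonneg_right (Real.rpow_le_rpow (norm_nonneg _) (hC x) h2.le)
        (by positivity)
    · exact (lp.memℓp (show lp (fun _ : Q => ℂ) 2 from mlin b C hC f)).summable h2
  exact e f

/-- bounded functions -/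
def Bd (b : Q → ℂ) : Prop := ∃ C : ℝ, ∀ x, ‖b x‖ ≤ C

/-- multiplication by a bounded function -/
def mo (b : Q → ℂ) (hb : Bd b) : Op Q :=
  (mlin b hb.choose hb.choose_spec).mkContinuous hb.choose (norm_mlin b _ hb.choose_spec)

lemma mo_fn (b : Q → ℂ) (hb : Bd b) (f : Hil Q) (x : Q) : (mo b hb f).fn x = b x * f.fn x := rfl

lemma op_ext {s t : Op Q} (h : ∀ f x, (s f).fn x = (t f).fn x) : s = t :=
  ContinuousLinearMap.ext fun f => Subtype.ext (funext fun x => h f x)

lemma op_fn_sum {ι : Type} (u : Finset ι) (s : ι → Op Q) (f : Hil Q) (x : Q) :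
    ((∑ k ∈ u, s k) f).fn x = ∑ k ∈ u, (s k f).fn x := by
  classical
  induction u using Finset.induction_on with
  | empty => rw [Finset.sum_empty, Finset.sum_empty]; rfl
  | insert i u hi ih => rw [Finset.sum_insert hi, Finset.sum_insert hi, ← ih]; rfl

section

variable {n : ℕ}

/-- bounded representations -/
def BRep (ρ : Q →* Matrix (Fin n) (Fin n) ℚ) : Prop := ∃ C : ℚ, ∀ g i j, |ρ g i j| ≤ C

variable {ρ : Q →* Matrix (Fin n) (Fin n) ℚ} (hρ : BRep ρ)

include hρ in
lemma bd1 (i j : Fin n) : Bd fun x : Q => ((ρ x i j : ℚ) : ℂ) := by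
  obtain ⟨C, hC⟩ := hρ
  refine ⟨(C : ℝ), fun x => ?_⟩
  rw [Complex.norm_ratCast]
  exact_mod_cast hC x i j

include hρ in
lemma bd2 (i j : Fin n) : Bd fun x : Q => ((ρ x⁻¹ i j : ℚ) : ℂ) := by
  obtain ⟨C, hC⟩ := hρ
  refine ⟨(C : ℝ), fun x => ?_⟩
  rw [Complex.norm_ratCast]
  exact_mod_cast hC x⁻¹ i j

/-- the intertwiner -/
def V1 : Matrix (Fin n) (Fin n) (Op Q) := Matrix.of fun i j => mo _ (bd1 hρ i j)

/-- its inverse -/
def V2 : Matrix (Fin n) (Fin n) (Op Q) := Matrix.of fun i j => mo _ (bd2 hρ i j)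

lemma V21 : V2 hρ * V1 hρ = 1 := by
  refine Matrix.ext fun i j => op_ext fun f x => ?_
  rw [Matrix.mul_apply, op_fn_sum]
  have h1 : ∀ k, ((V2 hρ i k * V1 hρ k j) f).fn x =
      ((ρ x⁻¹ i k * ρ x k j : ℚ) : ℂ) * f.fn x := by
    intro k
    change ((ρ x⁻¹ i k : ℚ) : ℂ) * (((ρ x k j : ℚ) : ℂ) * f.fn x) = _
    push_cast
    ring
  rw [Finset.sum_congr rfl fun k _ => h1 k, ← Finset.sum_mul, ← Rat.cast_sum, ← Matrix.mul_apply,
    ← map_mul, inv_mul_cancel, map_one]
  by_cases h : i = j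
  · subst h
    rw [Matrix.one_apply_eq, Matrix.one_apply_eq, Rat.cast_one, one_mul]
    rfl
  · rw [Matrix.one_apply_ne h, Matrix.one_apply_ne h, Rat.cast_zero, zero_mul]
    rfl

lemma V12 : V1 hρ * V2 hρ = 1 := by
  refine Matrix.ext fun i j => op_ext fun f x => ?_
  rw [Matrix.mul_apply, op_fn_sum]
  have h1 : ∀ k, ((V1 hρ i k * V2 hρ k j) f).fn x =
      ((ρ x i k * ρ x⁻¹ k j : ℚ) : ℂ) * f.fn x := by
    intro k
    change ((ρ x i k : ℚ) : ℂ) * (((ρ x⁻¹ k j : ℚ) : ℂ) * f.fn x) = _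
    push_cast
    ring
  rw [Finset.sum_congr rfl fun k _ => h1 k, ← Finset.sum_mul, ← Rat.cast_sum, ← Matrix.mul_apply,
    ← map_mul, mul_inv_cancel, map_one]
  by_cases h : i = j
  · subst h
    rw [Matrix.one_apply_eq, Matrix.one_apply_eq, Rat.cast_one, one_mul]
    rfl
  · rw [Matrix.one_apply_ne h, Matrix.one_apply_ne h, Rat.cast_zero, zero_mul]
    rfl

/-- the tensor product, for operators -/
def EOp (s : Op Q) : Matrix (Fin n) (Fin n) (Op Q) :=
  V1 hρ * Matrix.diagonal (fun _ => s) * V2 hρ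

lemma EOp_apply (s : Op Q) (i j : Fin n) :
    EOp hρ s i j = ∑ k, V1 hρ i k * s * V2 hρ k j := by
  rw [EOp, Matrix.mul_apply]
  exact Finset.sum_congr rfl fun k _ => by rw [Matrix.mul_diagonal]

lemma EOp_one : EOp hρ (1 : Op Q) = 1 := by
  rw [EOp, Matrix.diagonal_one, Matrix.mul_one, V12]

lemma EOp_zero : EOp hρ (0 : Op Q) = 0 := by
  rw [EOp, Matrix.diagonal_zero, Matrix.mul_zero, Matrix.zero_mul]

lemma EOp_mul (s t : Op Q) : EOp hρ (s * t) = EOp hρ s * EOp hρ t := by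
  have h1 : (Matrix.diagonal fun _ : Fin n => s * t) =
      (Matrix.diagonal fun _ : Fin n => s) * Matrix.diagonal fun _ => t := by
    rw [Matrix.diagonal_mul_diagonal]
  rw [EOp, EOp, EOp, h1]
  calc _ = V1 hρ * (Matrix.diagonal fun _ => s) * 1 * (Matrix.diagonal fun _ => t) * V2 hρ := by
        simp only [Matrix.mul_one, Matrix.mul_assoc]
    _ = _ := by
        rw [← V21 hρ]
        simp only [Matrix.mul_assoc]

lemma EOp_add (s t : Op Q) : EOp hρ (s + t) = EOp hρ s + EOp hρ t := by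
  have h1 : (Matrix.diagonal fun _ : Fin n => s + t) =
      (Matrix.diagonal fun _ : Fin n => s) + Matrix.diagonal fun _ => t := by
    rw [Matrix.diagonal_add]
  rw [EOp, EOp, EOp, h1, Matrix.mul_add, Matrix.add_mul]

lemma EOp_neg (s : Op Q) : EOp hρ (-s) = -EOp hρ s := by
  have h1 := EOp_add hρ s (-s)
  rw [add_neg_cancel, EOp_zero] at h1
  exact (neg_eq_of_add_eq_zero_right h1.symm).symm

lemma EOp_lreg (c : ℂ) (g : Q) (i j : Fin n) :
    EOp hρ (c • lreg g) i j = (c * (ρ g i j : ℚ)) • lreg g := by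
  rw [EOp_apply]
  refine op_ext fun f x => ?_
  rw [op_fn_sum]
  have h1 : ∀ k, ((V1 hρ i k * (c • lreg g) * V2 hρ k j) f).fn x =
      ((ρ x i k * ρ (x⁻¹ * g) k j : ℚ) : ℂ) * (c * f.fn (g⁻¹ * x)) := by
    intro k
    change ((ρ x i k : ℚ) : ℂ) * (c * (((ρ (g⁻¹ * x)⁻¹ k j : ℚ) : ℂ) * f.fn (g⁻¹ * x))) = _
    rw [mul_inv_rev, inv_inv]
    push_cast
    ring
  rw [Finset.sum_congr rfl fun k _ => h1 k, ← Finset.sum_mul, ← Rat.cast_sum, ← Matrix.mul_apply,
    ← map_mul, mul_inv_cancel_left]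
  change _ = c * (ρ g i j : ℚ) * f.fn (g⁻¹ * x)
  ring

lemma EOp_cont (i j : Fin n) : Continuous fun s : Op Q => EOp hρ s i j := by
  simp only [EOp_apply]
  refine continuous_finsetSum _ fun k _ => ?_
  exact (continuous_const.mul continuous_id).mul continuous_const

lemma EOp_mem0 {s : Op Q} (hs : s ∈ groupRing Q) : ∀ i j, EOp hρ s i j ∈ groupRing Q := by
  refine Subring.closure_induction (p := fun s _ => ∀ i j, EOp hρ s i j ∈ groupRing Q)
    ?_ ?_ ?_ ?_ ?_ ?_ hs
  · rintro _ ⟨c, g, rfl⟩ i j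
    rw [EOp_lreg]
    exact Subring.subset_closure ⟨_, g, rfl⟩
  · intro i j
    rw [EOp_zero]
    exact Subring.zero_mem _
  · intro i j
    rw [EOp_one]
    by_cases h : i = j
    · subst h; rw [Matrix.one_apply_eq]; exact Subring.one_mem _
    · rw [Matrix.one_apply_ne h]; exact Subring.zero_mem _
  · intro s t _ _ hs ht i j
    rw [EOp_add]
    exact Subring.add_mem _ (hs i j) (ht i j)
  · intro s _ hs i j
    rw [EOp_neg]
    exact Subring.neg_mem _ (hs i j)
  · intro s t _ _ hs ht i j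
    rw [EOp_mul, Matrix.mul_apply]
    exact Subring.sum_mem _ fun k _ => Subring.mul_mem _ (hs i k) (ht k j)

lemma EOp_mem {s : Op Q} (hs : s ∈ redCstar Q) (i j : Fin n) : EOp hρ s i j ∈ redCstar Q := by
  have hs' : s ∈ closure (groupRing Q : Set (Op Q)) := hs
  have h := map_mem_closure (f := fun s : Op Q => EOp hρ s i j)
    (t := (groupRing Q : Set (Op Q))) (EOp_cont hρ i j) hs' (fun x hx => EOp_mem0 hρ hx i j)
  exact h

/-- the tensor product with a bounded representation -/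
def fell : RedC Q →+* Matrix (Fin n) (Fin n) (RedC Q) where
  toFun s := Matrix.of fun i j => ⟨EOp hρ (vl Q s) i j, EOp_mem hρ (vl_mem s) i j⟩
  map_one' := by
    refine Matrix.ext fun i j => vl_inj ?_
    change EOp hρ (vl Q 1) i j = _
    rw [map_one, EOp_one]
    by_cases h : i = j
    · subst h; rw [Matrix.one_apply_eq, Matrix.one_apply_eq, map_one]
    · rw [Matrix.one_apply_ne h, Matrix.one_apply_ne h, map_zero]
  map_mul' s t := by
    refine Matrix.ext fun i j => vl_inj ?_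
    change EOp hρ (vl Q (s * t)) i j = _
    rw [map_mul, EOp_mul, Matrix.mul_apply, Matrix.mul_apply, map_sum]
    exact Finset.sum_congr rfl fun k _ => by rw [map_mul]; rfl
  map_zero' := by
    refine Matrix.ext fun i j => vl_inj ?_
    change EOp hρ (vl Q 0) i j = _
    rw [map_zero, EOp_zero, Matrix.zero_apply, Matrix.zero_apply, map_zero]
  map_add' s t := by
    refine Matrix.ext fun i j => vl_inj ?_
    change EOp hρ (vl Q (s + t)) i j = _
    rw [map_add, EOp_add, Matrix.add_apply, Matrix.add_apply, map_add]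
    rfl

lemma fell_psi (g : Q) (c : ℚ) (i j : Fin n) :
    fell hρ (psi Q (single g c)) i j = psi Q (single g (c * ρ g i j)) := by
  refine vl_inj ?_
  change EOp hρ (vl Q (psi Q (single g c))) i j = _
  rw [vl_psi, vl_psi, opQ_single, opQ_single, EOp_lreg]
  push_cast
  rfl

end

end

end Pool.Agent.W5h52.ZP
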