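import Pool.Agent.W5h52.ZP.Tw
import Pool.Agent.W5h52.ZP.Fell

/-!
Vanishing of `Ext` groups of finite dimensional modules with a filtration with bounded quotients.
-/

set_option autoImplicit false
set_option linter.unusedSectionVars false

open MonoidAlgebra CategoryTheory CategoryTheory.Abelian

namespace Pool.Agent.W5h52.ZP

open Pool.Agent.H919R4.ZS (RedC)

noncomputable section

lemma EV_retract {R : Type} [Ring R] {A A' M : Type} [AddCommGroup A] [Module R A] [AddCommGroup A']
    [Module R A'] [AddCommGroup M] [Module R M] (f : A →ₗ[R] A') (g : A' →ₗ[R] A)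
    (hgf : g.comp f = LinearMap.id) {n : ℕ} (h : EV (R := R) A' n M) : EV (R := R) A n M := by
  unfold EV at *
  refine subsingleton_of_forall_eq 0 fun x => ?_
  have h1 : x.comp (Ext.mk₀ (ModuleCat.ofHom f)) (add_zero n) = 0 := Subsingleton.elim _ _
  have h2 : (x.comp (Ext.mk₀ (ModuleCat.ofHom f)) (add_zero n)).comp
      (Ext.mk₀ (ModuleCat.ofHom g)) (add_zero n) = x := by
    rw [Ext.comp_assoc_of_third_deg_zero, Ext.mk₀_comp_mk₀]
    have h3 : ModuleCat.ofHom f ≫ ModuleCat.ofHom g = 𝟙 (ModuleCat.of R A) :=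
      ModuleCat.hom_ext hgf
    rw [h3, Ext.comp_mk₀_id]
  rw [← h2, h1, Ext.zero_comp]

variable {Q : Type} [Group Q]

/-! ### modules over the reduced C*-algebra twisted by a bounded representation -/

section

variable {n : ℕ} {ρ : Q →* Matrix (Fin n) (Fin n) ℚ}

/-- a module over the reduced C*-algebra twisted by a bounded representation -/
def Fl (_ : BRep ρ) (A : Type) : Type := Fin n → A

variable (hρ : BRep ρ) (A : Type) [AddCommGroup A] [Module (RedC Q) A]

instance : AddCommGroup (Fl hρ A) := inferInstanceAs (AddCommGroup (Fin n → A))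

instance : Module (RedC Q) (Fl hρ A) :=
  letI := mvMod (RedC Q) A n
  Module.compHom (Fin n → A) (fell hρ)

lemma fl_smul (s : RedC Q) (m : Fl hρ A) (i : Fin n) : (s • m) i = ∑ j, fell hρ s i j • m j := rfl

/-- comparison -/
def flEq : Tw ρ (Res (psi Q) A) →ₗ[MonoidAlgebra ℚ Q] Res (psi Q) (Fl hρ A) :=
  mkLin { toFun := fun m => m, map_zero' := rfl, map_add' := fun _ _ => rfl } (by
    intro g c m
    funext i
    change (single g c • m : Tw ρ (Res (psi Q) A)) i =
      ∑ j, fell hρ (psi Q (single g c)) i j • (show A from m j)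
    rw [tw_smul]
    exact Finset.sum_congr rfl fun j _ => by rw [fell_psi]; rfl)

/-- comparison -/
def flEq' : Res (psi Q) (Fl hρ A) →ₗ[MonoidAlgebra ℚ Q] Tw ρ (Res (psi Q) A) :=
  mkLin { toFun := fun m => m, map_zero' := rfl, map_add' := fun _ _ => rfl } (by
    intro g c m
    funext i
    change ∑ j, fell hρ (psi Q (single g c)) i j • (show A from m j) = (single g c • (show
      Tw ρ (Res (psi Q) A) from m)) i
    rw [tw_smul]
    exact Finset.sum_congr rfl fun j _ => by rw [fell_psi]; rfl)

lemma dual_bdd (hρ : BRep ρ) : BRep (dual ρ) := by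
  obtain ⟨C, hC⟩ := hρ
  exact ⟨C, fun g i j => hC g⁻¹ j i⟩

end

/-- all `Ext^t(M, A)` vanish, for the modules `A` over the reduced C*-algebra -/
def AllV (Q : Type) [Group Q] (t : ℕ) (M : Type) [AddCommGroup M] [Module (MonoidAlgebra ℚ Q) M] :
    Prop :=
  ∀ (A : Type) [AddCommGroup A] [Module (RedC Q) A],
    EV (R := MonoidAlgebra ℚ Q) (Res (psi Q) A) t M

lemma allV_tw {n : ℕ} {ρ : Q →* Matrix (Fin n) (Fin n) ℚ} (hρ : BRep ρ) {t : ℕ} {M : Type}
    [AddCommGroup M] [Module (MonoidAlgebra ℚ Q) M] (h : AllV Q t M) : AllV Q t (Tw ρ M) := by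
  intro A _ _
  refine EV_tw ρ t M ?_
  exact EV_retract (flEq (dual_bdd hρ) A) (flEq' (dual_bdd hρ) A) rfl (h (Fl (dual_bdd hρ) A))

/-! ### bounded modules -/

/-- the underlying rational vector space -/
def Rt (_ : Type) (W : Type) : Type := W

section

variable (W : Type) [AddCommGroup W] [Module (MonoidAlgebra ℚ Q) W]

instance : AddCommGroup (Rt Q W) := inferInstanceAs (AddCommGroup W)

instance : Module ℚ (Rt Q W) := Module.compHom W (MonoidAlgebra.singleOneRingHom (R := ℚ) (M := Q))

variable {W}

lemma rt_smul (c : ℚ) (w : Rt Q W) : c • w = (sc c : MonoidAlgebra ℚ Q) • (show W from w) := rfl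

/-- the group acting on the vector space -/
def actR (W : Type) [AddCommGroup W] [Module (MonoidAlgebra ℚ Q) W] :
    Q →* (Rt Q W →ₗ[ℚ] Rt Q W) where
  toFun g :=
    { toFun := fun w => (single g 1 : MonoidAlgebra ℚ Q) • (show W from w)
      map_add' := fun w w' => smul_add _ (show W from w) (show W from w')
      map_smul' := fun c w => by
        change (single g 1 : MonoidAlgebra ℚ Q) • (sc c : MonoidAlgebra ℚ Q) • (show W from w) =
          (sc c : MonoidAlgebra ℚ Q) • (single g 1 : MonoidAlgebra ℚ Q) • (show W from w)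
        rw [smul_smul, smul_smul, sc, single_mul_single, single_mul_single, mul_one, one_mul,
          mul_one, one_mul] }
  map_one' := LinearMap.ext fun w => one_smul (MonoidAlgebra ℚ Q) (show W from w)
  map_mul' g h := LinearMap.ext fun w => by
    change (single (g * h) 1 : MonoidAlgebra ℚ Q) • (show W from w) =
      (single g 1 : MonoidAlgebra ℚ Q) • (single h 1 : MonoidAlgebra ℚ Q) • (show W from w)
    rw [smul_smul, single_mul_single, mul_one]

/-- the action on a finite dimensional space is bounded -/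
def BddAct (Q : Type) [Group Q] (W : Type) [AddCommGroup W] [Module (MonoidAlgebra ℚ Q) W] : Prop :=
  ∀ (f : W →+ ℚ) (w : W), ∃ C : ℚ, ∀ g : Q, |f ((single g 1 : MonoidAlgebra ℚ Q) • w)| ≤ C

lemma spn_fin {r : ℕ} (h : Spn Q W r) : Module.Finite ℚ (Rt Q W) := by
  obtain ⟨v, hv⟩ := h
  refine Module.Finite.of_surjective (Fintype.linearCombination ℚ (fun i => (v i : Rt Q W))) ?_
  intro x
  obtain ⟨c, hc⟩ := hv x
  exact ⟨c, hc.symm⟩

/-- coordinates -/
theorem exists_tw {r : ℕ} (h : Spn Q W r) (hb : BddAct Q W) :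
    ∃ (n : ℕ) (ρ : Q →* Matrix (Fin n) (Fin n) ℚ), BRep ρ ∧
      ∃ e : W →ₗ[MonoidAlgebra ℚ Q] Tw ρ (Triv Q), Function.Bijective e := by
  have hfin := spn_fin h
  set n := Module.finrank ℚ (Rt Q W) with hn
  set b : Module.Basis (Fin n) ℚ (Rt Q W) := Module.finBasis ℚ (Rt Q W) with hbdef
  set ρ : Q →* Matrix (Fin n) (Fin n) ℚ :=
    ((LinearMap.toMatrixAlgEquiv b : (Rt Q W →ₗ[ℚ] Rt Q W) →* Matrix (Fin n) (Fin n) ℚ)).comp
      (actR W) with hρ
  have hρa : ∀ g i j, ρ g i j = b.repr (actR W g (b j)) i := by
    intro g i j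
    exact LinearMap.toMatrixAlgEquiv_apply b (actR W g) i j
  have hrep : ∀ g (w : Rt Q W) i, b.repr (actR W g w) i = ∑ j, ρ g i j * b.repr w j := by
    intro g w i
    have h1 : actR W g w = ∑ j, b.repr w j • actR W g (b j) := by
      conv_lhs => rw [← b.sum_repr w, map_sum]
      exact Finset.sum_congr rfl fun j _ => map_smul _ _ _
    rw [h1, map_sum, Finsupp.finsetSum_apply]
    refine Finset.sum_congr rfl fun j _ => ?_
    rw [map_smul, Finsupp.smul_apply, smul_eq_mul, hρa, mul_comm]
  refine ⟨n, ρ, ?_, mkLin { toFun := fun w i => b.repr (show Rt Q W from w) i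
                            map_zero' := by
                              funext i
                              change b.repr 0 i = 0
                              rw [map_zero]; rfl
                            map_add' := fun w w' => by
                              funext i
                              change b.repr ((show Rt Q W from w) + (show Rt Q W from w')) i = _
                              rw [map_add]; rfl } ?_, ?_⟩
  · -- bounded
    have h1 : ∀ i j, ∃ C : ℚ, ∀ g, |ρ g i j| ≤ C := by
      intro i j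
      obtain ⟨C, hC⟩ := hb { toFun := fun w => b.repr (show Rt Q W from w) i
                             map_zero' := by
                              change b.repr 0 i = 0
                              rw [map_zero]; rfl
                             map_add' := fun w w' => by
                              change b.repr ((show Rt Q W from w) + (show Rt Q W from w')) i = _
                              rw [map_add]; rfl } (b j)
      refine ⟨C, fun g => ?_⟩
      rw [hρa]
      exact hC g
    choose C hC using h1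
    refine ⟨∑ i, ∑ j, |C i j|, fun g i j => (hC i j g).trans ((le_abs_self _).trans ?_)⟩
    refine (Finset.single_le_sum (f := fun j => |C i j|) (fun _ _ => abs_nonneg _)
      (Finset.mem_univ j)).trans ?_
    exact Finset.single_le_sum (f := fun i => ∑ j, |C i j|)
      (fun _ _ => Finset.sum_nonneg fun _ _ => abs_nonneg _) (Finset.mem_univ i)
  · intro g c w
    funext i
    rw [tw_smul]
    have h1 : (single g c : MonoidAlgebra ℚ Q) • w =
        (c • actR W g (show Rt Q W from w) : Rt Q W) := by
      change _ = (sc c : MonoidAlgebra ℚ Q) • (single g 1 : MonoidAlgebra ℚ Q) • w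
      rw [smul_smul, sc, single_mul_single, mul_one, one_mul]
    change b.repr ((single g c : MonoidAlgebra ℚ Q) • w : W) i = _
    rw [h1, map_smul, Finsupp.smul_apply, smul_eq_mul, hrep, Finset.mul_sum]
    refine Finset.sum_congr rfl fun j _ => ?_
    rw [← mul_assoc]
    conv_lhs => rw [← augQ_single g (c * ρ g i j)]
    rfl
  · constructor
    · intro w w' hw
      exact b.repr.injective (Finsupp.ext fun i => congrFun hw i)
    · intro x
      refine ⟨(b.repr.symm (Finsupp.equivFunOnFinite.symm x) : Rt Q W), ?_⟩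
      funext i
      change b.repr (b.repr.symm (Finsupp.equivFunOnFinite.symm x)) i = _
      rw [LinearEquiv.apply_symm_apply]
      rfl

theorem allV_bdd {r t : ℕ} (ht : AllV Q t (Triv Q)) (h : Spn Q W r) (hb : BddAct Q W) :
    AllV Q t W := by
  obtain ⟨n, ρ, hρ, e, he⟩ := exists_tw h hb
  intro A _ _
  exact EV_congr (LinearEquiv.ofBijective e he) (allV_tw hρ ht A)

/-- finite dimensional modules with a filtration with bounded quotients -/
def Dis (Q : Type) [Group Q] (W : Type) [AddCommGroup W] [Module (MonoidAlgebra ℚ Q) W] : Prop :=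
  ∃ (r : ℕ) (F : ℕ → Submodule (MonoidAlgebra ℚ Q) W), F 0 = ⊥ ∧ F r = ⊤ ∧
    ∀ i, F i ≤ F (i + 1) ∧ (∃ s, Spn Q (F (i + 1) ⧸ (F i).submoduleOf (F (i + 1))) s) ∧
      BddAct Q (F (i + 1) ⧸ (F i).submoduleOf (F (i + 1)))

lemma EV_filt {A : Type} [AddCommGroup A] [Module (MonoidAlgebra ℚ Q) A] {t : ℕ}
    {F F' : Submodule (MonoidAlgebra ℚ Q) W} (hle : F ≤ F')
    (h : EV (R := MonoidAlgebra ℚ Q) A t F)
    (h' : EV (R := MonoidAlgebra ℚ Q) A t (F' ⧸ F.submoduleOf F')) :
    EV (R := MonoidAlgebra ℚ Q) A t F' := by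
  refine EV_mid (Submodule.inclusion hle) (F.submoduleOf F').mkQ
    (Submodule.inclusion_injective hle) (Submodule.mkQ_surjective _) ?_ h h'
  intro x
  rw [Submodule.mkQ_apply, Submodule.Quotient.mk_eq_zero]
  constructor
  · intro hx
    exact ⟨⟨x.1, hx⟩, rfl⟩
  · rintro ⟨y, rfl⟩
    exact y.2

theorem allV_dis {t : ℕ} (ht : AllV Q t (Triv Q)) (h : Dis Q W) : AllV Q t W := by
  obtain ⟨r, F, h0, hr, hF⟩ := h
  intro A _ _
  have key : ∀ i, EV (R := MonoidAlgebra ℚ Q) (Res (psi Q) A) t (F i) := by
    intro i
    induction i with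
    | zero =>
      have : Subsingleton (F 0) := by
        rw [h0]
        exact Unique.instSubsingleton
      exact EV_of_subsingleton t
    | succ i ih =>
      obtain ⟨hle, ⟨s, hs⟩, hb⟩ := hF i
      exact EV_filt hle ih (allV_bdd ht hs hb A)
  have h1 := key r
  rw [hr] at h1
  exact EV_congr (Submodule.topEquiv).symm h1

end

end

end Pool.Agent.W5h52.ZP
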