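import Pool.Agent.W5h52.ZP.Asm
import Pool.Agent.TH38.ZT.Trace

/-!
Extensions with amenable kernel with distal monodromy: conclusions.
-/

set_option autoImplicit false
set_option linter.unusedSectionVars false

open scoped Matrix

namespace Pool.Agent.W5h52.ZP

open Pool.Agent.H919R4.ZS MonoidAlgebra
open Pool.Agent.TH38.ZT (ExAt exAt_iff euler exists_of_euler contraction' Tower)
open Pool.Agent.R807.ZK (gmap rat rat_inj clear toRat toQuot coeff quot Back back_acyclic tor_of_rat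
  augm_gmap gmap_surj eps_row rat_single)
open Pool.Agent.H496R3.ZS (IsAmenable)

noncomputable section

section

variable {Q : Type} [Group Q]

/-- `ℓ²(Q)` as a module over the reduced C*-algebra -/
def LM (Q : Type) : Type := L2 Q

instance : AddCommGroup (LM Q) := inferInstanceAs (AddCommGroup (L2 Q))

instance : Module (RedC Q) (LM Q) := Module.compHom (L2 Q) (valR : RedC Q →+* (L2 Q →L[ℂ] L2 Q))

lemma lm_rat (a : MonoidAlgebra ℤ Q) (v : Res (psi Q) (LM Q)) :
    rat Q a • v = (L a (show L2 Q from v) : L2 Q) := by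
  have h1 : psi Q (rat Q a) = toRed Q a := by rw [← psi_rat]; rfl
  change valR (psi Q (rat Q a)) (show L2 Q from v) = _
  rw [h1]
  rfl

lemma lm_single (g : Q) (c : ℚ) (v : Res (psi Q) (LM Q)) :
    (single g c : MonoidAlgebra ℚ Q) • v = ((c : ℂ) • lregL g (show L2 Q from v) : L2 Q) := by
  change opQ Q (single g c) (show Hil Q from v) = _
  rw [opQ_single]
  rfl

lemma mv_rat {a b : ℕ} (M : Matrix (Fin a) (Fin b) (MonoidAlgebra ℤ Q)) (v : Fin b → L2 Q) :
    (mv (M.map (rat Q)) (A := Res (psi Q) (LM Q)) v : Fin a → L2 Q) = A M v := by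
  funext i
  exact Finset.sum_congr rfl fun j _ => lm_rat (M i j) (v j)

theorem van_of_EV (Y : FinRes Q) (j : ℕ)
    (h : EV (R := MonoidAlgebra ℚ Q) (Res (psi Q) (LM Q)) j (Triv Q)) : Van2 Y j := by
  have h1 := hv_of_EV Y j h
  cases j with
  | zero =>
    intro v hv
    exact h1 v ((mv_rat (Y.d 0) v).trans hv)
  | succ j =>
    intro v hv
    obtain ⟨w, hw⟩ := h1 v ((mv_rat (Y.d (j + 1)) v).trans hv)
    exact ⟨w, (mv_rat (Y.d j) w).symm.trans hw⟩

/-- there are no homomorphisms from finite dimensional modules to `ℓ²` -/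
theorem hom_zero [Infinite Q] {W : Type} [AddCommGroup W] [Module (MonoidAlgebra ℚ Q) W] {r : ℕ}
    (h : Spn Q W r) : EV (R := MonoidAlgebra ℚ Q) (Res (psi Q) (LM Q)) 0 W := by
  refine EV_zero_iff.2 fun f => ?_
  obtain ⟨v, hv⟩ := h
  obtain ⟨F, hF⟩ : ∃ F : W → L2 Q, ∀ w, F w = f w := ⟨fun w => f w, fun _ => rfl⟩
  have hsc : ∀ (c : ℚ) (w : W), F ((sc c : MonoidAlgebra ℚ Q) • w) = (c : ℂ) • F w := by
    intro c w
    rw [hF, map_smul, sc, lm_single]
    have h1 : (show L2 Q from f w) = F w := (hF w).symm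
    rw [h1]
    congr 1
    ext x
    rw [lregL_apply, inv_one, one_mul]
  have hg : ∀ (g : Q) (w : W), F ((single g 1 : MonoidAlgebra ℚ Q) • w) = lregL g (F w) := by
    intro g w
    rw [hF, map_smul, lm_single, Rat.cast_one, one_smul]
    have h1 : (show L2 Q from f w) = F w := (hF w).symm
    rw [h1]
  have hadd : ∀ w w' : W, F (w + w') = F w + F w' := by
    intro w w'
    rw [hF, map_add, hF, hF]
    rfl
  have hsum : ∀ (s : Finset (Fin r)) (x : Fin r → W), F (∑ i ∈ s, x i) = ∑ i ∈ s, F (x i) := by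
    intro s x
    exact map_sum (AddMonoidHom.mk' F hadd) x s
  set V : Submodule ℂ (L2 Q) := Submodule.span ℂ (Set.range F) with hV
  have hle : V ≤ Submodule.span ℂ (Set.range fun i => F (v i)) := by
    refine Submodule.span_le.2 ?_
    rintro _ ⟨x, rfl⟩
    obtain ⟨c, hc⟩ := hv x
    rw [hc, hsum]
    refine Submodule.sum_mem _ fun i _ => ?_
    rw [hsc]
    exact Submodule.smul_mem _ _ (Submodule.subset_span ⟨i, rfl⟩)
  have : FiniteDimensional ℂ (Submodule.span ℂ (Set.range fun i => F (v i))) :=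
    FiniteDimensional.span_of_finite ℂ (Set.finite_range _)
  have : FiniteDimensional ℂ V := Submodule.finiteDimensional_of_le hle
  have h0 := fin_inv V (by
    intro g w hw
    refine Submodule.span_induction (p := fun w _ => lregL g w ∈ V) ?_ ?_ ?_ ?_ hw
    · rintro _ ⟨x, rfl⟩
      exact Submodule.subset_span ⟨(single g 1 : MonoidAlgebra ℚ Q) • x, hg g x⟩
    · rw [map_zero]; exact Submodule.zero_mem _
    · intro x y _ _ hx hy
      rw [map_add]; exact Submodule.add_mem _ hx hy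
    · intro a x _ hx
      rw [map_smul]; exact Submodule.smul_mem _ _ hx)
  refine LinearMap.ext fun x => ?_
  have h1 : F x ∈ V := Submodule.subset_span ⟨x, rfl⟩
  rw [h0] at h1
  exact (hF x).symm.trans ((Submodule.mem_bot ℂ).1 h1)

variable {G : Type} [Group G]

/-- the top degree -/
theorem ev_top [Infinite Q] (X : FinRes G) (π : MonoidAlgebra ℤ G →+* MonoidAlgebra ℤ Q)
    (hπ : ∀ a, augm Q (π a) = augm G a) (hs : Function.Surjective π) (m : ℕ)
    (h : ∀ i ≤ m + 1, ExAt X ((toRed Q).comp π) i)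
    (hD : ∀ q, 1 ≤ q → q < m → Dis Q (X.homology ((rat Q).comp π) q))
    (hf : ∃ r, Spn Q (X.homology ((rat Q).comp π) m) r) :
    EV (R := MonoidAlgebra ℚ Q) (Res (psi Q) (LM Q)) (m + 1) (Triv Q) := by
  obtain ⟨e⟩ := q0 X π hπ hs
  refine EV_congr e.symm ?_
  refine MCx.core m (hv_of_ex X π (m + 1) h (m + 1) le_rfl (LM Q)) fun t k htk => ?_
  refine EV_congr (hEquiv X ((rat Q).comp π) k).symm ?_
  cases t with
  | zero =>
    obtain rfl : k + 1 = m := by omega
    obtain ⟨r, hr⟩ := hf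
    exact hom_zero hr
  | succ t =>
    exact allV_dis (allV_triv X π hπ hs m (fun i hi => h i (by omega)) hD (t + 1) (by omega))
      (hD (k + 1) (by omega) (by omega)) (LM Q)

end

section

variable {G : Type} [Group G] (N : Subgroup G) [N.Normal]

theorem mainA (hN : IsAmenable N) (X : FinRes G) (Y : FinRes (G ⧸ N)) (i : ℕ)
    (h : Nontrivial (Y.homology (toRed (G ⧸ N)) i))
    (hD : ∀ q, 1 ≤ q → q < i → Dis (G ⧸ N) (X.homology (toRat N) q)) :
    ∃ j ≤ i, Nontrivial (X.homology (toRed G) j) := by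
  by_contra hcon
  push Not at hcon
  have h1 : ∀ j ≤ i, ExAt X (toQuot N) j := coeff N hN X i fun j hj => (exAt_iff X _ j).2 (hcon j hj)
  have h2 := allV_triv X (gmap (QuotientGroup.mk' N)) (augm_gmap _)
    (gmap_surj _ (QuotientGroup.mk'_surjective N)) i h1 hD i le_rfl
  exact not_nontrivial_iff_subsingleton.2 ((exAt_iff Y _ i).1 (exAt_of_allV Y i h2)) h

/-- extensions, with towers -/
theorem mainT (hN : IsAmenable N) (B : Type) [Group B]
    (hB : Tower (G ⧸ N) B) (Y : FinRes B) (i : ℕ)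
    (hY : Nontrivial (Y.homology (toRed B) i) ∨ (i = Y.len ∧ euler Y ≠ 0) ∨
      (i = 2 ∧ (Y.len ≤ 2 ∨ ∃ k ≤ 2, Nontrivial (Y.cohomology k))))
    (X : FinRes G) (hD : ∀ q, 1 ≤ q → q < i → Dis (G ⧸ N) (X.homology (toRat N) q)) :
    ∃ j ≤ i, Nontrivial (X.homology (toRed G) j) := by
  obtain ⟨⟨W⟩, h2⟩ := Pool.Agent.TH38.ZT.tower hB Y
  obtain ⟨k, hk, hk'⟩ : ∃ k ≤ i, Nontrivial (Y.homology (toRed B) k) := by
    rcases hY with h | ⟨rfl, h⟩ | ⟨rfl, h⟩
    · exact ⟨i, le_rfl, h⟩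
    · exact Pool.Agent.TH38.ZT.exists_of_euler Y h
    · exact Pool.Agent.H919R4.ZS.main Y h
  obtain ⟨l, hl, hl'⟩ : ∃ l ≤ k, Nontrivial (W.homology (toRed (G ⧸ N)) l) := by
    by_contra hcon
    push Not at hcon
    exact not_nontrivial_iff_subsingleton.2 (h2 W k hcon k le_rfl) hk'
  obtain ⟨j, hj, hj'⟩ := mainA N hN X W l hl' fun q h1 h3 => hD q h1 (h3.trans_le (hl.trans hk))
  exact ⟨j, hj.trans (hl.trans hk), hj'⟩

/-- the consequences for the quotient -/
theorem conseqD (hN : IsAmenable N) (X : FinRes G) (Y : FinRes (G ⧸ N)) (m : ℕ)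
    (hD : ∀ q, 1 ≤ q → q < m → Dis (G ⧸ N) (X.homology (toRat N) q))
    (hf : ∃ r, Spn (G ⧸ N) (X.homology (toRat N) m) r)
    (h : ∀ i ≤ m + 1, Subsingleton (X.homology (toRed G) i)) :
    (∀ i ≤ m + 1, Van2 Y i) ∧ ∀ i ≤ m, ExAt Y (toRed (G ⧸ N)) i := by
  have h1 : ∀ j ≤ m + 1, ExAt X (toQuot N) j :=
    coeff N hN X (m + 1) fun j hj => (exAt_iff X _ j).2 (h j hj)
  have hall := allV_triv X (gmap (QuotientGroup.mk' N)) (augm_gmap _)
    (gmap_surj _ (QuotientGroup.mk'_surjective N)) m (fun i hi => h1 i (by omega)) hD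
  have hinf : Infinite (G ⧸ N) :=
    infinite_of_van0 Y (van_of_EV Y 0 (hall 0 (Nat.zero_le m) (LM (G ⧸ N))))
  refine ⟨fun i hi => ?_, fun i hi => exAt_of_allV Y i (hall i hi)⟩
  rcases Nat.lt_or_ge i (m + 1) with h3 | h3
  · exact van_of_EV Y i (hall i (by omega) (LM (G ⧸ N)))
  · obtain rfl : i = m + 1 := by omega
    exact van_of_EV Y (m + 1) (ev_top X (gmap (QuotientGroup.mk' N)) (augm_gmap _)
      (gmap_surj _ (QuotientGroup.mk'_surjective N)) m h1 hD hf)

/-- the main theorem -/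
theorem mainD (hN : IsAmenable N)
    (X : FinRes G) (Y : FinRes (G ⧸ N)) (m : ℕ)
    (hD : ∀ q, 1 ≤ q → q < m → Dis (G ⧸ N) (X.homology (toRat N) q))
    (hf : ∃ r, Spn (G ⧸ N) (X.homology (toRat N) m) r)
    (hY : (∃ i ≤ m + 1, ¬ Van2 Y i) ∨
      ((Y.len ≤ m + 1 ∨ (Y.len ≤ 2 * m + 2 ∧ (∀ k < Y.len, Subsingleton (Y.cohomology k)) ∧
        Nonempty (Y.cohomology Y.len ≃+ ℤ))) ∧
        (euler Y ≠ 0 ∨ ∃ i, Nontrivial (Y.homology (toRed (G ⧸ N)) i)))) :
    ∃ j ≤ m + 1, Nontrivial (X.homology (toRed G) j) := by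
  by_contra hcon
  push Not at hcon
  obtain ⟨h3, h4⟩ := conseqD N hN X Y m hD hf fun i hi => hcon i hi
  rcases hY with ⟨i, hi, h5⟩ | ⟨h5, h6⟩
  · exact h5 (h3 i hi)
  · have h7 := all_of Y m h4 (h3 (m + 1) le_rfl) h5
    rcases h6 with h6 | ⟨i, h6⟩
    · obtain ⟨i, _, hi⟩ := exists_of_euler Y h6
      exact not_nontrivial_iff_subsingleton.2 ((exAt_iff Y _ i).1 (h7 i)) hi
    · exact not_nontrivial_iff_subsingleton.2 ((exAt_iff Y _ i).1 (h7 i)) h6

end

end

end Pool.Agent.W5h52.ZP
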