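import Pool.Agent.R807.ZK2
import Pool.Agent.TH38.ZT.Trace

/-!
Finite dimensional invariant subspaces of `ℓ²(Q)`, `Q` an infinite group, and matrices over the
integral group ring acting on tuples of `ℓ²` functions.
-/

set_option autoImplicit false
set_option linter.unusedSectionVars false

open scoped Matrix ENNReal
open Filter Topology

namespace Pool.Agent.W5h52.ZP

open Pool.Agent.H919R4.ZS MonoidAlgebra

noncomputable section

variable {Q : Type} [Group Q]

/-- an infinite group has no finite dimensional invariant subspace of `ℓ²` -/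
theorem fin_inv [Infinite Q] (V : Submodule ℂ (L2 Q)) [FiniteDimensional ℂ V]
    (hV : ∀ g, ∀ v ∈ V, lregL g v ∈ V) : V = ⊥ := by
  set e := (Module.finBasis ℂ V).equivFunL with he
  have key : ∀ v ∈ V, v 1 = 0 := by
    intro v hv
    have h1 : ∀ x : Q, ‖v 1‖ ≤ ∑ i, (‖(e : V →L[ℂ] (Fin (Module.finrank ℂ V) → ℂ))‖ * ‖v‖) *
        ‖((Module.finBasis ℂ V i : V) : L2 Q) x‖ := by
      intro x
      have h2 : v 1 = (lregL x v) x := by rw [lregL_apply, inv_mul_cancel]
      set w : V := ⟨lregL x v, hV x v hv⟩ with hw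
      have h3 : (w : L2 Q) = ∑ i, e w i • ((Module.finBasis ℂ V i : V) : L2 Q) := by
        have h4 := (Module.finBasis ℂ V).sum_equivFun w
        have h5 := congrArg (fun u : V => (u : L2 Q)) h4
        rw [← h5, Submodule.coe_sum]
        rfl
      have h6 : (lregL x v) x = ∑ i, e w i * ((Module.finBasis ℂ V i : V) : L2 Q) x := by
        have h7 := congrArg (fun u : L2 Q => u x) h3
        change (lregL x v) x = _ at h7
        rw [h7, lp.coeFn_sum, Finset.sum_apply]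
        rfl
      rw [h2, h6]
      refine (norm_sum_le _ _).trans (Finset.sum_le_sum fun i _ => ?_)
      rw [norm_mul]
      refine mul_le_mul_of_nonneg_right ?_ (norm_nonneg _)
      refine (norm_le_pi_norm (e w) i).trans ?_
      have h8 := (e : V →L[ℂ] (Fin (Module.finrank ℂ V) → ℂ)).le_opNorm w
      have h9 : ‖w‖ = ‖v‖ := by
        change ‖(lregL x v : L2 Q)‖ = ‖v‖
        exact norm_shift x v
      rw [h9] at h8
      exact h8
    have h2 : Tendsto (fun x : Q => ∑ i, (‖(e : V →L[ℂ] (Fin (Module.finrank ℂ V) → ℂ))‖ * ‖v‖) *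
        ‖((Module.finBasis ℂ V i : V) : L2 Q) x‖) cofinite (𝓝 0) := by
      have h3 : (0 : ℝ) = ∑ i : Fin (Module.finrank ℂ V),
          (‖(e : V →L[ℂ] (Fin (Module.finrank ℂ V) → ℂ))‖ * ‖v‖) * 0 := by simp
      rw [h3]
      refine tendsto_finsetSum _ fun i _ => ?_
      refine Tendsto.const_mul _ ?_
      exact tendsto_zero_iff_norm_tendsto_zero.1 (tendsto_cofinite _)
    have h3 : ‖v 1‖ ≤ 0 := ge_of_tendsto' h2 h1
    exact norm_le_zero_iff.1 h3
  rw [eq_bot_iff]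
  intro f hf
  rw [Submodule.mem_bot]
  ext y
  have h1 := key _ (hV y⁻¹ f hf)
  rw [lregL_apply, inv_inv, mul_one] at h1
  rw [h1]
  rfl

/-- matrices over the integral group ring acting on tuples of `ℓ²` functions -/
def A {a b : ℕ} (M : Matrix (Fin a) (Fin b) (MonoidAlgebra ℤ Q)) (v : Fin b → L2 Q) :
    Fin a → L2 Q := act (M.map L) v

lemma A_row {a b : ℕ} (M : Matrix (Fin a) (Fin b) (MonoidAlgebra ℤ Q)) (v : Fin b → L2 Q)
    (r : Fin a) : A M v r = pV (M r) v := rfl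

lemma A_mul {a b c : ℕ} (M : Matrix (Fin a) (Fin b) (MonoidAlgebra ℤ Q))
    (N : Matrix (Fin b) (Fin c) (MonoidAlgebra ℤ Q)) (v : Fin c → L2 Q) :
    A (M * N) v = A M (A N v) := by
  rw [A, Matrix.map_mul, act_mul]; rfl

lemma A_add {a b : ℕ} (M N : Matrix (Fin a) (Fin b) (MonoidAlgebra ℤ Q)) (v : Fin b → L2 Q) :
    A (M + N) v = A M v + A N v := by
  rw [A, Matrix.map_add _ (map_add _), act_add]; rfl

lemma A_sub {a b : ℕ} (M N : Matrix (Fin a) (Fin b) (MonoidAlgebra ℤ Q)) (v : Fin b → L2 Q) :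
    A (M - N) v = A M v - A N v := by
  rw [eq_sub_iff_add_eq, ← A_add, sub_add_cancel]

lemma A_zero {a b : ℕ} (M : Matrix (Fin a) (Fin b) (MonoidAlgebra ℤ Q)) :
    A M (0 : Fin b → L2 Q) = 0 := act_zero _

lemma A_sub' {a b : ℕ} (M : Matrix (Fin a) (Fin b) (MonoidAlgebra ℤ Q)) (v w : Fin b → L2 Q) :
    A M (v - w) = A M v - A M w := by
  funext i
  simp [A, act, Finset.sum_sub_distrib]

lemma L_zsmul (c : ℤ) (a : MonoidAlgebra ℤ Q) (v : L2 Q) : L (c • a) v = c • L a v := by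
  have h : L (c • a) = c • L a := map_zsmul L c a
  rw [h]
  simp

lemma A_one {a : ℕ} (c : ℤ) (v : Fin a → L2 Q) :
    A (c • (1 : Matrix (Fin a) (Fin a) (MonoidAlgebra ℤ Q))) v = c • v := by
  have h : ((c • (1 : Matrix (Fin a) (Fin a) (MonoidAlgebra ℤ Q))).map L :
      Matrix (Fin a) (Fin a) (L2 Q →L[ℂ] L2 Q)) = c • 1 :=
    Pool.Agent.R807.ZK.map_smul_one L c
  funext i
  rw [A, h, act]
  have h2 : ∀ j, ((c • (1 : Matrix (Fin a) (Fin a) (L2 Q →L[ℂ] L2 Q))) i j) (v j) =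
      c • ((1 : Matrix (Fin a) (Fin a) (L2 Q →L[ℂ] L2 Q)) i j (v j)) := by
    intro j
    rw [Matrix.smul_apply]
    simp
  rw [Finset.sum_congr rfl fun j _ => h2 j, ← Finset.smul_sum]
  have h3 := congrFun (act_one v) i
  rw [act] at h3
  rw [h3]
  rfl

lemma smul_inj {a : ℕ} {c : ℤ} (hc : c ≠ 0) {v : Fin a → L2 Q} (h : c • v = 0) : v = 0 := by
  funext i
  have h1 := congrFun h i
  change c • v i = 0 at h1
  rw [← Int.cast_smul_eq_zsmul ℂ] at h1
  rcases smul_eq_zero.1 h1 with h2 | h2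
  · exact absurd (by exact_mod_cast h2) hc
  · rw [h2]; rfl

lemma exists_div {a b : ℕ} {c : ℤ} (hc : c ≠ 0) {v : Fin a → L2 Q} {w : Fin b → L2 Q}
    {M : Matrix (Fin a) (Fin b) (MonoidAlgebra ℤ Q)} (h : A M w = c • v) :
    ∃ w', A M w' = v := by
  refine ⟨fun j => (c : ℂ)⁻¹ • w j, ?_⟩
  funext i
  have h1 := congrFun h i
  change (∑ j, L (M i j) (w j)) = c • v i at h1
  change (∑ j, L (M i j) ((c : ℂ)⁻¹ • w j)) = v i
  have hc' : (c : ℂ) ≠ 0 := by exact_mod_cast hc
  rw [Finset.sum_congr rfl fun j _ => map_smul (L (M i j)) (c : ℂ)⁻¹ (w j), ← Finset.smul_sum, h1,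
    ← Int.cast_smul_eq_zsmul ℂ, smul_smul, inv_mul_cancel₀ hc', one_smul]

end

end Pool.Agent.W5h52.ZP
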