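import Pool.Agent.W5h52.ZP.Cplx

/-!
The trivial module over a rational group ring, and finite dimensional modules with nilpotent action.
-/

set_option autoImplicit false
set_option linter.unusedSectionVars false

open MonoidAlgebra

namespace Pool.Agent.W5h52.ZP

noncomputable section

variable (Q : Type) [Group Q]

/-- the augmentation of the rational group ring -/
def augQ : MonoidAlgebra ℚ Q →+* ℚ := (MonoidAlgebra.lift ℚ ℚ Q 1).toRingHom

variable {Q}

lemma augQ_single (g : Q) (c : ℚ) : augQ Q (single g c) = c := by simp [augQ]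

/-- the trivial module -/
def Triv (_ : Type) : Type := ℚ

instance : AddCommGroup (Triv Q) := inferInstanceAs (AddCommGroup ℚ)

instance : Module (MonoidAlgebra ℚ Q) (Triv Q) := Module.compHom ℚ (augQ Q)

lemma triv_smul (r : MonoidAlgebra ℚ Q) (t : Triv Q) :
    r • t = (augQ Q r * (show ℚ from t) : ℚ) := rfl

/-- rational scalars -/
def sc (c : ℚ) : MonoidAlgebra ℚ Q := single 1 c

lemma sc_mul (c d : ℚ) : (sc c * sc d : MonoidAlgebra ℚ Q) = sc (c * d) := by
  rw [sc, sc, sc, single_mul_single, one_mul]

lemma sc_add (c d : ℚ) : (sc (c + d) : MonoidAlgebra ℚ Q) = sc c + sc d := single_add _ _ _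

lemma sc_sub (c d : ℚ) : (sc (c - d) : MonoidAlgebra ℚ Q) = sc c - sc d := single_sub _ _ _

lemma sc_one : (sc 1 : MonoidAlgebra ℚ Q) = 1 := rfl

lemma sc_zero : (sc 0 : MonoidAlgebra ℚ Q) = 0 := single_zero _

section

variable {W : Type} [AddCommGroup W] [Module (MonoidAlgebra ℚ Q) W]

lemma smul_inv (u : W) (hu : ∀ g : Q, (single g 1 : MonoidAlgebra ℚ Q) • u = u)
    (r : MonoidAlgebra ℚ Q) : r • u = (sc (augQ Q r) : MonoidAlgebra ℚ Q) • u := by
  refine induction_linear r ?_ ?_ ?_
  · rw [zero_smul, map_zero, sc_zero, zero_smul]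
  · intro x y hx hy
    rw [add_smul, hx, hy, map_add, sc_add, add_smul]
  · intro g c
    have h1 : (single g c : MonoidAlgebra ℚ Q) = sc c * single g 1 := by
      rw [sc, single_mul_single, one_mul, mul_one]
    rw [augQ_single, h1, mul_smul, hu]

/-- the homomorphism from the trivial module given by an invariant element -/
def ofInv (u : W) (hu : ∀ g : Q, (single g 1 : MonoidAlgebra ℚ Q) • u = u) :
    Triv Q →ₗ[MonoidAlgebra ℚ Q] W where
  toFun t := (sc (show ℚ from t) : MonoidAlgebra ℚ Q) • u
  map_add' s t := by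
    change (sc ((show ℚ from s) + (show ℚ from t)) : MonoidAlgebra ℚ Q) • u = _
    rw [sc_add, add_smul]
  map_smul' r t := by
    rw [triv_smul]
    change (sc (augQ Q r * (show ℚ from t)) : MonoidAlgebra ℚ Q) • u = r • _
    have h1 := smul_inv u hu (r * sc (show ℚ from t))
    rw [map_mul, sc, augQ_single, mul_smul] at h1
    exact h1.symm

lemma ofInv_apply (u : W) (hu : ∀ g : Q, (single g 1 : MonoidAlgebra ℚ Q) • u = u) (t : ℚ) :
    ofInv u hu t = (sc t : MonoidAlgebra ℚ Q) • u := rfl

/-- the module is spanned over the rational numbers by a number of elements -/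
def Spn (Q : Type) [Group Q] (W : Type) [AddCommGroup W] [Module (MonoidAlgebra ℚ Q) W]
    (n : ℕ) : Prop :=
  ∃ v : Fin n → W, ∀ x : W, ∃ c : Fin n → ℚ, x = ∑ i, (sc (c i) : MonoidAlgebra ℚ Q) • v i

end

/-- products of `g - 1` for the elements `g` of a list -/
def pr (l : List Q) : MonoidAlgebra ℚ Q := (l.map fun g => (single g 1 - 1 : MonoidAlgebra ℚ Q)).prod

lemma pr_cons (g : Q) (l : List Q) : pr (g :: l) = (single g 1 - 1) * pr l := by
  rw [pr, List.map_cons, List.prod_cons, pr]

lemma pr_nil : pr ([] : List Q) = 1 := rfl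

/-- the group acts nilpotently -/
def NilW (Q : Type) [Group Q] (W : Type) [AddCommGroup W] [Module (MonoidAlgebra ℚ Q) W] : Prop :=
  ∃ n : ℕ, ∀ l : List Q, l.length = n → ∀ x : W, pr l • x = 0

variable {A : Type} [AddCommGroup A] [Module (MonoidAlgebra ℚ Q) A]

/-- the vanishing of `Ext` groups for nilpotent modules -/
theorem EV_nil {a : ℕ} (h : EV (R := MonoidAlgebra ℚ Q) A a (Triv Q)) : ∀ (n : ℕ) (W : Type)
    [AddCommGroup W] [Module (MonoidAlgebra ℚ Q) W], Spn Q W n → NilW Q W →
    EV (R := MonoidAlgebra ℚ Q) A a W := by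
  intro n
  induction n with
  | zero =>
    intro W _ _ hs _
    obtain ⟨v, hv⟩ := hs
    have : Subsingleton W := subsingleton_of_forall_eq 0 fun x => by
      obtain ⟨c, hc⟩ := hv x
      rw [hc, Fin.sum_univ_zero]
    exact EV_of_subsingleton a
  | succ n ih =>
    intro W _ _ hs hW
    by_cases hsub : Subsingleton W
    · exact EV_of_subsingleton a
    · classical
      rw [not_subsingleton_iff_nontrivial] at hsub
      obtain ⟨w, hw⟩ := exists_ne (0 : W)
      -- an invariant element
      obtain ⟨u, hu0, hu⟩ : ∃ u : W, u ≠ 0 ∧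
          ∀ g : Q, (single g 1 : MonoidAlgebra ℚ Q) • u = u := by
        have h1 := Nat.find_spec hW
        have hpos : Nat.find hW ≠ 0 := by
          intro h0
          have h2 := h1 [] (by rw [h0]; rfl) w
          rw [pr_nil, one_smul] at h2
          exact hw h2
        have h2 := Nat.find_min hW (m := Nat.find hW - 1) (by omega)
        push Not at h2
        obtain ⟨l, hl, x, hx⟩ := h2
        refine ⟨pr l • x, hx, fun g => ?_⟩
        have h3 := h1 (g :: l) (by rw [List.length_cons, hl]; omega) x
        rw [pr_cons, mul_smul, sub_smul, one_smul, sub_eq_zero] at h3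
        exact h3
      have hinj : Function.Injective (ofInv u hu) := by
        rw [injective_iff_map_eq_zero]
        intro t ht
        by_contra hne
        have ht' : (sc (show ℚ from t) : MonoidAlgebra ℚ Q) • u = 0 := ht
        have h1 : (sc (show ℚ from t)⁻¹ : MonoidAlgebra ℚ Q) •
            (sc (show ℚ from t) : MonoidAlgebra ℚ Q) • u = u := by
          rw [smul_smul, sc_mul, inv_mul_cancel₀ hne, sc_one, one_smul]
        rw [ht', smul_zero] at h1
        exact hu0 h1.symm
      have hex : Function.Exact (ofInv u hu) (LinearMap.range (ofInv u hu)).mkQ := by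
        intro x
        rw [Submodule.mkQ_apply, Submodule.Quotient.mk_eq_zero]
        exact Iff.rfl
      obtain ⟨v, hv⟩ := hs
      obtain ⟨c, hc⟩ := hv u
      obtain ⟨i, hi⟩ : ∃ i, c i ≠ 0 := by
        by_contra hcon
        push Not at hcon
        apply hu0
        rw [hc]
        refine Finset.sum_eq_zero fun i _ => ?_
        rw [hcon i, sc_zero, zero_smul]
      refine EV_mid (ofInv u hu) (LinearMap.range (ofInv u hu)).mkQ hinj
        (Submodule.mkQ_surjective _) hex h (ih _ ?_ ?_)
      · refine ⟨fun j => Submodule.Quotient.mk (v (i.succAbove j)), fun q => ?_⟩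
        obtain ⟨x, rfl⟩ := Submodule.Quotient.mk_surjective _ q
        obtain ⟨d, hd⟩ := hv x
        refine ⟨fun j => d (i.succAbove j) - d i / c i * c (i.succAbove j), ?_⟩
        have h1 : (Submodule.Quotient.mk x : W ⧸ LinearMap.range (ofInv u hu)) =
            Submodule.Quotient.mk (x - (sc (d i / c i) : MonoidAlgebra ℚ Q) • u) := by
          rw [Submodule.Quotient.eq, sub_sub_cancel]
          exact ⟨(d i / c i : ℚ), rfl⟩
        have h2 : x - (sc (d i / c i) : MonoidAlgebra ℚ Q) • u =
            ∑ j, (sc (d (i.succAbove j) - d i / c i * c (i.succAbove j)) : MonoidAlgebra ℚ Q) •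
              v (i.succAbove j) := by
          have h3 : x - (sc (d i / c i) : MonoidAlgebra ℚ Q) • u =
              ∑ j, (sc (d j - d i / c i * c j) : MonoidAlgebra ℚ Q) • v j := by
            conv_lhs => rw [hd, hc, Finset.smul_sum, ← Finset.sum_sub_distrib]
            refine Finset.sum_congr rfl fun j _ => ?_
            rw [smul_smul, sc_mul, sc_sub, sub_smul]
          rw [h3, Fin.sum_univ_succAbove _ i, div_mul_cancel₀ _ hi, sub_self, sc_zero, zero_smul,
            zero_add]
        rw [h1, h2, ← Submodule.mkQ_apply, map_sum]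
        refine Finset.sum_congr rfl fun j _ => ?_
        rw [map_smul, Submodule.mkQ_apply]
      · obtain ⟨N, hN⟩ := hW
        refine ⟨N, fun l hl q => ?_⟩
        obtain ⟨x, rfl⟩ := Submodule.Quotient.mk_surjective _ q
        rw [← Submodule.Quotient.mk_smul, hN l hl, Submodule.Quotient.mk_zero]

end

end Pool.Agent.W5h52.ZP
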