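import Pool.Agent.W5h52.ZP.Sharp

/-!
Poincaré duality groups: the dual complex of a finite free resolution is a resolution, for a twisted
antiinvolution.
-/

set_option autoImplicit false
set_option linter.unusedSectionVars false

open scoped Matrix
open MulOpposite

namespace Pool.Agent.W5h52.ZP

open Pool.Agent.H919R4.ZS MonoidAlgebra
open Pool.Agent.TH38.ZT (ExAt exAt_iff)

noncomputable section

variable {Q : Type} [Group Q]

/-- right translation of cochains -/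
def Rg {n : ℕ} (g : Q) : (Fin n → MonoidAlgebra ℤ Q) →+ (Fin n → MonoidAlgebra ℤ Q) where
  toFun y := fun j => y j * single g 1
  map_zero' := funext fun _ => zero_mul _
  map_add' _ _ := funext fun _ => add_mul _ _ _

lemma Rg_apply {n : ℕ} (g : Q) (y : Fin n → MonoidAlgebra ℤ Q) (j : Fin n) :
    Rg g y j = y j * single g 1 := rfl

lemma Rg_mulVec {m n : ℕ} (g : Q) (M : Matrix (Fin m) (Fin n) (MonoidAlgebra ℤ Q))
    (y : Fin n → MonoidAlgebra ℤ Q) : M *ᵥ Rg g y = Rg g (M *ᵥ y) := by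
  funext i
  rw [Rg_apply, Matrix.mulVec, dotProduct, Matrix.mulVec, dotProduct, Finset.sum_mul]
  exact Finset.sum_congr rfl fun j _ => by rw [Rg_apply, mul_assoc]

lemma Rg_one {n : ℕ} (y : Fin n → MonoidAlgebra ℤ Q) : Rg (1 : Q) y = y := by
  funext j
  rw [Rg_apply]
  exact mul_one _

lemma Rg_mul {n : ℕ} (g h : Q) (y : Fin n → MonoidAlgebra ℤ Q) : Rg (g * h) y = Rg h (Rg g y) := by
  funext j
  rw [Rg_apply, Rg_apply, Rg_apply, mul_assoc, single_mul_single, mul_one]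

/-- an additive functional on the top cochains whose kernel is the group of coboundaries -/
structure TopFun (Y : FinRes Q) (N : ℕ) where
  E : (Fin (Y.n (N + 1)) → MonoidAlgebra ℤ Q) →+ ℤ
  ker : ∀ y, E y = 0 ↔ ∃ x, Y.d N *ᵥ x = y
  y1 : Fin (Y.n (N + 1)) → MonoidAlgebra ℤ Q
  hy1 : E y1 = 1

namespace TopFun

variable {Y : FinRes Q} {N : ℕ} (T : TopFun Y N)

lemma E_Rg (g : Q) (y : Fin (Y.n (N + 1)) → MonoidAlgebra ℤ Q) :
    T.E (Rg g y) = T.E y * T.E (Rg g T.y1) := by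
  have h1 : T.E (y - T.E y • T.y1) = 0 := by
    rw [map_sub, map_zsmul, T.hy1, smul_eq_mul, mul_one, sub_self]
  obtain ⟨x, hx⟩ := (T.ker _).1 h1
  have h2 : T.E (Rg g (y - T.E y • T.y1)) = 0 := (T.ker _).2 ⟨Rg g x, by rw [Rg_mulVec, hx]⟩
  rw [map_sub, map_sub, map_zsmul, map_zsmul, smul_eq_mul] at h2
  exact sub_eq_zero.1 h2

/-- the orientation character -/
def w : Q →* ℤ where
  toFun g := T.E (Rg g T.y1)
  map_one' := by rw [Rg_one, T.hy1]
  map_mul' g h := by rw [Rg_mul, T.E_Rg]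

lemma w_apply (g : Q) : T.w g = T.E (Rg g T.y1) := rfl

lemma w_inv (g : Q) : T.w g * T.w g⁻¹ = 1 := by rw [← map_mul, mul_inv_cancel, map_one]

lemma w_sq (g : Q) : T.w g * T.w g = 1 := by
  rcases Int.isUnit_iff.1 (IsUnit.of_mul_eq_one _ (T.w_inv g)) with h | h
  · rw [h, mul_one]
  · rw [h]; norm_num

/-- entrywise application of the antiinvolution -/
def dv {n : ℕ} (u : Fin n → MonoidAlgebra ℤ Q) : Fin n → MonoidAlgebra ℤ Q :=
  fun j => unop (anti T.w (u j))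

lemma dv_dv {n : ℕ} (u : Fin n → MonoidAlgebra ℤ Q) : T.dv (T.dv u) = u :=
  funext fun j => anti_anti T.w (u j)

lemma dv_zero {n : ℕ} : T.dv (0 : Fin n → MonoidAlgebra ℤ Q) = 0 := by
  funext j
  change unop (anti T.w 0) = 0
  rw [map_zero, unop_zero]

lemma vecMul_dag {m n : ℕ} (M : Matrix (Fin m) (Fin n) (MonoidAlgebra ℤ Q))
    (u : Fin n → MonoidAlgebra ℤ Q) : u ᵥ* dag (anti T.w) M = T.dv (M *ᵥ T.dv u) := by
  funext i
  change ∑ j, u j * unop (anti T.w (M i j)) = unop (anti T.w (∑ j, M i j * T.dv u j))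
  rw [map_sum, Finset.unop_sum]
  refine Finset.sum_congr rfl fun j _ => ?_
  rw [map_mul, unop_mul]
  congr 1
  exact (anti_anti T.w (u j)).symm

/-- the values of the functional on the basis -/
def a (j : Fin (Y.n (N + 1))) : ℤ := T.E (Pi.single j 1)

lemma E_single (j : Fin (Y.n (N + 1))) (r : MonoidAlgebra ℤ Q) :
    T.E (Pi.single j (unop (anti T.w r))) = augm Q r * T.a j := by
  refine induction_linear r ?_ ?_ ?_
  · rw [map_zero, unop_zero, Pi.single_zero, map_zero, map_zero, zero_mul]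
  · intro x y hx hy
    rw [map_add, unop_add, Pi.single_add, map_add, hx, hy, map_add, add_mul]
  · intro g c
    have h1 : (Pi.single j (unop (anti T.w (single g c))) :
        Fin (Y.n (N + 1)) → MonoidAlgebra ℤ Q) = (c * T.w g) • Rg g⁻¹ (Pi.single j 1) := by
      funext k
      rw [Pi.smul_apply, Rg_apply, anti_single]
      by_cases hk : k = j
      · subst hk
        rw [Pi.single_eq_same, Pi.single_eq_same, one_mul, smul_single, smul_eq_mul, mul_one]
      · rw [Pi.single_eq_of_ne hk, Pi.single_eq_of_ne hk, zero_mul, smul_zero]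
    rw [h1, map_zsmul, T.E_Rg, augm_single, smul_eq_mul]
    change c * T.w g * (T.a j * T.w g⁻¹) = c * T.a j
    linear_combination (c * T.a j) * T.w_inv g

lemma epsa_eq (u : Fin (Y.n (N + 1)) → MonoidAlgebra ℤ Q) : epsa T.a u = T.E (T.dv u) := by
  have h1 : T.dv u = ∑ j, Pi.single j (T.dv u j) := (Finset.univ_sum_single _).symm
  rw [h1, map_sum, epsa]
  exact Finset.sum_congr rfl fun j _ => (T.E_single j (u j)).symm

end TopFun

/-- exactness of the cochain complex from the vanishing of the cohomology -/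
lemma coh_exact (Y : FinRes Q) (k : ℕ) (h : Subsingleton (Y.cohomology (k + 1)))
    (z : Fin (Y.n (k + 1)) → MonoidAlgebra ℤ Q) (hz : Y.d (k + 1) *ᵥ z = 0) :
    ∃ y, Y.d k *ᵥ y = z := by
  rw [QuotientAddGroup.subsingleton_iff, AddSubgroup.addSubgroupOf_eq_top] at h
  obtain ⟨y, hy⟩ := h (show z ∈ (Y.cobd (k + 1)).ker from hz)
  exact ⟨y, hy⟩

theorem exists_topFun (Y : FinRes Q) (N : ℕ) (hlen : Y.len = N + 1)
    (θ : Y.cohomology (N + 1) ≃+ ℤ) : Nonempty (TopFun Y N) := by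
  have hker : ∀ y, y ∈ (Y.cobd (N + 1)).ker := by
    intro y
    rw [AddMonoidHom.mem_ker]
    funext i
    exact (Fin.cast (Y.n_eq_zero (N + 1 + 1) (by omega)) i).elim0
  set e : (Fin (Y.n (N + 1)) → MonoidAlgebra ℤ Q) →+ (Y.cobd (N + 1)).ker :=
    (AddMonoidHom.id _).codRestrict _ hker with he
  have hcomp : ∀ y, (e y : Fin (Y.n (N + 1)) → MonoidAlgebra ℤ Q) = y := fun _ => rfl
  set E : (Fin (Y.n (N + 1)) → MonoidAlgebra ℤ Q) →+ ℤ :=
    θ.toAddMonoidHom.comp ((QuotientAddGroup.mk' _).comp e) with hE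
  have hEa : ∀ y, E y = θ (QuotientAddGroup.mk (e y)) := fun _ => rfl
  obtain ⟨q, hq⟩ := θ.surjective 1
  obtain ⟨y1, rfl⟩ := QuotientAddGroup.mk_surjective q
  refine ⟨⟨E, ?_, y1.1, ?_⟩⟩
  · intro y
    rw [hEa, map_eq_zero_iff θ θ.injective, QuotientAddGroup.eq_zero_iff]
    change y ∈ (Y.cobd N).range ↔ _
    exact Iff.rfl
  · rw [hEa, ← hq]
    rfl

/-- Poincaré duality groups -/
theorem exists_dualRes (Y : FinRes Q) (N : ℕ) (hlen : Y.len = N + 1)
    (h : ∀ k < N + 1, Subsingleton (Y.cohomology k)) (θ : Y.cohomology (N + 1) ≃+ ℤ) :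
    ∃ w : Q →* ℤ, (∀ g, w g * w g = 1) ∧ Nonempty (DualRes Y (anti w) N) := by
  obtain ⟨T⟩ := exists_topFun Y N hlen θ
  refine ⟨T.w, T.w_sq, ⟨⟨T.a, T.dv T.y1, ?_, ?_, ?_⟩⟩⟩
  · rw [T.epsa_eq, T.dv_dv, T.hy1]
  · intro u
    rw [T.epsa_eq, T.ker]
    constructor
    · rintro ⟨x, hx⟩
      refine ⟨T.dv x, ?_⟩
      rw [T.vecMul_dag, T.dv_dv, hx, T.dv_dv]
    · rintro ⟨v, hv⟩
      refine ⟨T.dv v, ?_⟩
      rw [← hv, T.vecMul_dag, T.dv_dv]
  · intro k hk u hu
    rw [T.vecMul_dag] at hu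
    have h1 : Y.d (k + 1) *ᵥ T.dv u = 0 := by
      rw [← T.dv_dv (Y.d (k + 1) *ᵥ T.dv u), hu, T.dv_zero]
    obtain ⟨x, hx⟩ := coh_exact Y k (h (k + 1) (by omega)) _ h1
    refine ⟨T.dv x, ?_⟩
    rw [T.vecMul_dag, T.dv_dv, hx, T.dv_dv]

end

end Pool.Agent.W5h52.ZP
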